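import Pool.Agent.H25.DI.Main

/-!
# Points on a geodesic and a regular polygon around it: the Atiyah–Sutcliffe inequality in `H³`

Points of hyperbolic 3-space are points of the open unit ball (Klein model), geodesics are chords.
A point `x` is also the positive definite Hermitian matrix `herm x` (up to positive factors), and
`U ∈ GL₂(ℂ)` acts by `X ↦ U X U*`.

Let `m` of the points lie on a geodesic `L` and let the others form a regular polygon around `L`: one
orbit of a rotation `U` about `L` (`q = n + 1 ≥ 1` vertices).  Put the ends of `L` at `0` and `∞`.  The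
polynomials of the points of `L` are `X^i (X^q - r_i^q)`, those of the polygon are
`ζ^(k(N-1)) P(ζ^(-k) X)` with `P = ∏ (X + q_i) * Q`, `Q` the polynomial of the polygon alone.  The
linear functionals `f ↦ ∑_(t = j mod q) w_t f_t`, with weights `w` that kill the polynomials of `L`, make
the coefficient matrix block triangular: the determinant is the one of the Fourier matrix times
`∏_j S_j`, `S_j = ∑_(t = j mod q) w_t P_t`.  The coefficients of `Q` are positive (they are not `0` by
`WeaklyConvex`, for all curvatures, and they are `1` in the limit of an ideal polygon), and the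
superadditivity of the geometric mean gives
`∏ S_j ≥ ∏ Q_t * (∑_t e_(m-t)(q) r_1 ... r_t)^q ≥ ∏ Q_t * ∏ (r_i + q_i)^q`,
which is the inequality: the gaps between `L` and the polygon are `r_i + q_i`.
-/

set_option autoImplicit false

namespace Pool.Agent.Results.MP_1fedf0_gt.Dihedral

open Finset Polynomial

/-- the stereographic image of a point of the unit sphere other than (0, 0, 1) -/
noncomputable def st (q : Fin 3 → ℝ) : ℂ :=
  ((q 0 : ℂ) + (q 1 : ℂ) * Complex.I) / (1 - (q 2 : ℂ))

/-- the configuration polynomials -/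
noncomputable def beta {n : ℕ} (p : Fin n → Fin n → Fin 3 → ℝ) (i : Fin n) : ℂ[X] :=
  ∏ j ∈ Finset.univ.erase i, (if p i j 2 = 1 then (1 : ℂ[X]) else X - C (st (p i j)))

/-- the determinant of their coefficients -/
noncomputable def coeffDet {n : ℕ} (p : Fin n → Fin n → Fin 3 → ℝ) : ℂ :=
  (Matrix.of fun i k : Fin n => (beta p i).coeff (k : ℕ)).det

/-- `|u_ij - u_ji|`; it is `1` if one of the two points is `∞` -/
noncomputable def gap {n : ℕ} (p : Fin n → Fin n → Fin 3 → ℝ) (i j : Fin n) : ℝ :=
  if p i j 2 = 1 ∨ p j i 2 = 1 then 1 else ‖st (p i j) - st (p j i)‖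

/-- the absolute value of the normalised Atiyah–Sutcliffe determinant -/
noncomputable def normDet {n : ℕ} (p : Fin n → Fin n → Fin 3 → ℝ) : ℝ :=
  ‖coeffDet p‖ / ∏ i, ∏ j ∈ Finset.Ioi i, gap p i j

/-- the Hermitian matrix of a point `x` of the ball (its determinant is `1 - |x|²`) -/
noncomputable def herm (x : Fin 3 → ℝ) : Matrix (Fin 2) (Fin 2) ℂ :=
  !![1 + (x 2 : ℂ), (x 0 : ℂ) + (x 1 : ℂ) * Complex.I; (x 0 : ℂ) - (x 1 : ℂ) * Complex.I, 1 - (x 2 : ℂ)]

/-- the isometry `X ↦ U X U*` of `H³` maps `x` to `y` -/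
def Moves (U : Matrix (Fin 2) (Fin 2) ℂ) (x y : Fin 3 → ℝ) : Prop :=
  ∃ κ : ℝ, 0 < κ ∧ U * herm x * U.conjTranspose = (κ : ℂ) • herm y

/-- Let `x 0, ..., x (m + n)` be distinct points of `H³`, the open unit ball (Klein model), let `c ≠ d` be
two points of `H³`, `L` the geodesic through `c` and `d`, and let the isometry `U` fix `c` and `d` (a
rotation about `L`).  Let the first `m` points lie on `L`, and let the other `n + 1 ≥ 1` points form an
orbit of `U`, not on `L`: `U` maps `x (m + k)` to `x (m + k + 1)` and the last point to `x m` (addition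
in `Fin (n + 1)` is cyclic), so they are the vertices of a regular polygon with axis `L`.  Let `p i j` be
the end point of the ray from `x i` through `x j`.

Then the configuration polynomials are linearly independent, and the normalised determinant of the
configuration is at least the one of the polygon, which is at least `1`. -/
theorem result (m n : ℕ) (x : Fin (m + (n + 1)) → Fin 3 → ℝ)
    (p : Fin (m + (n + 1)) → Fin (m + (n + 1)) → Fin 3 → ℝ) (hx : ∀ i, ∑ k : Fin 3, (x i k) ^ 2 < 1)
    (hinj : Function.Injective x)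
    (hp : ∀ i j, i ≠ j → (∑ k : Fin 3, (p i j k) ^ 2 = 1) ∧
      ∃ t : ℝ, 0 < t ∧ p i j = x i + t • (x j - x i))
    (c d : Fin 3 → ℝ) (hc : ∑ k : Fin 3, (c k) ^ 2 < 1) (hd : ∑ k : Fin 3, (d k) ^ 2 < 1) (hcd : c ≠ d)
    (U : Matrix (Fin 2) (Fin 2) ℂ) (hUc : Moves U c c) (hUd : Moves U d d)
    (hL : ∀ i : Fin m, ∃ t : ℝ, x (Fin.castAdd (n + 1) i) = c + t • (d - c))
    (hoff : ¬ ∃ t : ℝ, x (Fin.natAdd m 0) = c + t • (d - c))
    (hU : ∀ k : Fin (n + 1), Moves U (x (Fin.natAdd m k)) (x (Fin.natAdd m (k + 1)))) :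
    LinearIndependent ℂ (beta p) ∧
      1 ≤ normDet (fun k l : Fin (n + 1) => p (Fin.natAdd m k) (Fin.natAdd m l)) ∧
      normDet (fun k l : Fin (n + 1) => p (Fin.natAdd m k) (Fin.natAdd m l)) ≤ normDet p :=
  Pool.Agent.H25.DI.main (x := x) (p := p) hx hinj hp hc hd hcd hUc hUd hL hoff hU

end Pool.Agent.Results.MP_1fedf0_gt.Dihedral
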