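import Pool.Agent.H64.Hyp4.Ext

/-!
# At most four points of hyperbolic space: linear independence of the configuration polynomials

Suppose that the four polynomials are dependent.  Then a nonzero functional on cubic forms vanishes on
all of them.  By Sylvester it is `A ev_P + B ev_Q` for two points of the sphere, or the derivative at one
point.  Along a geodesic the ratio of the two (affine) functions attached to `P`, `Q` is monotone;
comparing the two extremal points shows that all four points have the same ratio, so they are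
coplanar, the plane being orthogonal to the geodesic from `P` to `Q`.  In the coordinate of the disc
with the centre on this geodesic the products of the endpoints `w i j`, `j ≠ i`, are then all
equal; a count of the angles (two combinatorial types) excludes this.
-/

set_option autoImplicit false

namespace Pool.Agent.Results.MP_1fedf0_gt.FourPoints

open Pool.Agent.Results.MP_1fedf0_gt.CollinearPlusOne Pool.Agent.H64.Hyp4

theorem erase_eq : ∀ i j k l : Fin 4, i ≠ j → i ≠ k → i ≠ l → j ≠ k → j ≠ l → k ≠ l →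
    Finset.univ.erase i = {j, k, l} := by decide

theorem prod_three {M : Type*} [CommMonoid M] (f : Fin 4 → M) (i j k l : Fin 4) (hij : i ≠ j)
    (hik : i ≠ k) (hil : i ≠ l) (hjk : j ≠ k) (hjl : j ≠ l) (hkl : k ≠ l) :
    ∏ m ∈ Finset.univ.erase i, f m = f j * f k * f l := by
  rw [erase_eq i j k l hij hik hil hjk hjl hkl, Finset.prod_insert (by simp [hjk, hjl]),
    Finset.prod_insert (by simp [hkl]), Finset.prod_singleton, mul_assoc]

theorem exists_tau {d e : ℂ} (hd : d ≠ 0) (h : d.re * e.im - d.im * e.re = 0) :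
    ∃ τ : ℝ, e = τ • d := by
  have h1 : 0 < d.re * d.re + d.im * d.im := by
    rw [← Complex.normSq_apply]
    exact Complex.normSq_pos.2 hd
  refine ⟨(e.re * d.re + e.im * d.im) / (d.re * d.re + d.im * d.im), ?_⟩
  rw [Complex.real_smul]
  apply Complex.ext
  · rw [Complex.re_ofReal_mul, div_mul_eq_mul_div, eq_div_iff h1.ne']
    linear_combination (-d.im) * h
  · rw [Complex.im_ofReal_mul, div_mul_eq_mul_div, eq_div_iff h1.ne']
    linear_combination d.re * h

section

variable {x : Fin 4 → Fin 3 → ℝ} {p : Fin 4 → Fin 4 → Fin 3 → ℝ}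

/-- two cubes -/
theorem case_two (hx : ∀ i, ∑ k : Fin 3, (x i k) ^ 2 < 1)
    (hp1 : ∀ i j, i ≠ j → ∑ k : Fin 3, (p i j k) ^ 2 = 1) (t : Fin 4 → Fin 4 → ℝ)
    (ht : ∀ i j, i ≠ j → 1 < t i j) (hp2 : ∀ i j, i ≠ j → p i j = x i + t i j • (x j - x i))
    (hgp : ∀ i j k, i ≠ j → i ≠ k → j ≠ k → p i j ≠ p i k) {u v : ℂ × ℂ} (huv : br u v ≠ 0)
    (A B : ℂ) (hAB : A ≠ 0 ∨ B ≠ 0)
    (h : ∀ i, A * ∏ j ∈ Finset.univ.erase i, br (spin (p i j)) v +
      B * ∏ j ∈ Finset.univ.erase i, br (spin (p i j)) u = 0) : False := by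
  obtain ⟨hu, hv⟩ := br_ne huv
  have hex : ∀ i j, ∃ κ : ℝ, 0 < κ ∧ (i ≠ j → ∀ α γ : ℂ × ℂ,
      br (spin (p i j)) α * (starRingEnd ℂ) (br (spin (p i j)) γ) = κ * Lam α γ (p i j)) := by
    intro i j
    by_cases hij : i = j
    · exact ⟨1, one_pos, fun h => absurd hij h⟩
    · obtain ⟨κ, h1, h2⟩ := exists_kappa (hp1 i j hij)
      exact ⟨κ, h1, fun _ => h2⟩
  choose κ hκ hκ' using hex
  have hns : ∀ i j, i ≠ j → ∀ α : ℂ × ℂ, Complex.normSq (br (spin (p i j)) α) =
      κ i j * Nm α (p i j) := by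
    intro i j hij α
    have h1 := hκ' i j hij α α
    rw [Complex.mul_conj, Lam_self] at h1
    exact_mod_cast h1
  have hline : ∀ i j, i ≠ j → ∀ α : ℂ × ℂ, Nm α (p i j) =
      Nm α (x i) + t i j * (Nm α (x j) - Nm α (x i)) := by
    intro i j hij α
    rw [hp2 i j hij, Nm_line]
  have hzero : ∀ i j, i ≠ j → Nm v (p i j) = 0 → Nm u (p i j) = 0 → False := by
    intro i j hij h1 h2
    have h3 := hns i j hij v
    have h4 := hns i j hij u
    rw [h1, mul_zero, Complex.normSq_eq_zero] at h3
    rw [h2, mul_zero, Complex.normSq_eq_zero] at h4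
    exact br_indep (spin_ne _) huv h4 h3
  obtain ⟨ha, hb, r, hr, hNM⟩ := multiplicative (fun i => Nm v (x i)) (fun i => Nm u (x i)) t
    (fun i => Nm_pos hv (hx i)) (fun i => Nm_pos hu (hx i)) ht
    (fun i j hij => by rw [← hline i j hij]; exact Nm_nonneg v (hp1 i j hij))
    (fun i j hij => by rw [← hline i j hij]; exact Nm_nonneg u (hp1 i j hij))
    (fun i j hij h1 h2 => by
      rw [← hline i j hij] at h1 h2
      exact hzero i j hij h1 h2)
    (Complex.normSq A) (Complex.normSq B) (Complex.normSq_nonneg A) (Complex.normSq_nonneg B)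
    (fun h1 h2 => by
      rw [Complex.normSq_eq_zero] at h1 h2
      rcases hAB with h | h
      · exact h h1
      · exact h h2)
    (by
      intro i
      have e1 : A * ∏ j ∈ Finset.univ.erase i, br (spin (p i j)) v =
          -(B * ∏ j ∈ Finset.univ.erase i, br (spin (p i j)) u) :=
        eq_neg_of_add_eq_zero_left (h i)
      have e2 := congrArg Complex.normSq e1
      rw [Complex.normSq_neg, Complex.normSq_mul, Complex.normSq_mul, map_prod, map_prod,
        Finset.prod_congr rfl fun j hj => hns i j (Finset.ne_of_mem_erase hj).symm v,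
        Finset.prod_congr rfl fun j hj => hns i j (Finset.ne_of_mem_erase hj).symm u,
        Finset.prod_mul_distrib, Finset.prod_mul_distrib,
        Finset.prod_congr rfl fun j hj => hline i j (Finset.ne_of_mem_erase hj).symm v,
        Finset.prod_congr rfl fun j hj => hline i j (Finset.ne_of_mem_erase hj).symm u] at e2
      have e3 : 0 < ∏ j ∈ Finset.univ.erase i, κ i j := Finset.prod_pos fun j _ => hκ i j
      apply mul_left_cancel₀ e3.ne'
      linarith)
  have hA : A ≠ 0 := Complex.normSq_pos.1 ha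
  have hNp : ∀ i j, i ≠ j → Nm v (p i j) = r * Nm u (p i j) := by
    intro i j hij
    have h1 : Nm v (x i) = r * Nm u (x i) := hNM i
    have h2 : Nm v (x j) = r * Nm u (x j) := hNM j
    rw [hline i j hij, hline i j hij, h1, h2]
    ring
  have hMp : ∀ i j, i ≠ j → 0 < Nm u (p i j) := by
    intro i j hij
    refine lt_of_le_of_ne (Nm_nonneg u (hp1 i j hij)) fun h0 => ?_
    have h1 := hNp i j hij
    rw [← h0, mul_zero] at h1
    exact hzero i j hij h1 h0.symm
  have hMx : ∀ i, 0 < Nm u (x i) := fun i => Nm_pos hu (hx i)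
  set R := Real.sqrt r with hR
  have hR0 : 0 < R := Real.sqrt_pos.2 hr
  have hR2 : R ^ 2 = r := Real.sq_sqrt hr.le
  have hRc : (R : ℂ) ≠ 0 := by exact_mod_cast hR0.ne'
  let y : Fin 4 → ℂ := fun i => Lam v u (x i) / ((R * Nm u (x i) : ℝ) : ℂ)
  let w : Fin 4 → Fin 4 → ℂ := fun i j => Lam v u (p i j) / ((R * Nm u (p i j) : ℝ) : ℂ)
  have hw1 : ∀ i j, i ≠ j → ‖w i j‖ = 1 := by
    intro i j hij
    have h1 := normSq_Lam u v (p i j)
    rw [hp1 i j hij, sub_self, zero_mul, sub_zero, hNp i j hij, Complex.normSq_eq_norm_sq] at h1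
    have h2 : 0 < R * Nm u (p i j) := mul_pos hR0 (hMp i j hij)
    have h3 : ‖Lam v u (p i j)‖ = R * Nm u (p i j) := by
      rw [← Real.sqrt_sq (norm_nonneg (Lam v u (p i j))), h1, ← hR2,
        ← Real.sqrt_sq h2.le]
      congr 1
      ring
    change ‖Lam v u (p i j) / ((R * Nm u (p i j) : ℝ) : ℂ)‖ = 1
    rw [norm_div, h3, Complex.norm_real, Real.norm_of_nonneg h2.le, div_self h2.ne']
  have hy1 : ∀ i, ‖y i‖ < 1 := by
    intro i
    have h1 := normSq_Lam u v (x i)
    have h0 : Nm v (x i) = r * Nm u (x i) := hNM i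
    rw [h0, Complex.normSq_eq_norm_sq] at h1
    have h2 : 0 < R * Nm u (x i) := mul_pos hR0 (hMx i)
    have h3 : 0 < (1 - ∑ k, x i k ^ 2) * Complex.normSq (br u v) :=
      mul_pos (sub_pos.2 (hx i)) (Complex.normSq_pos.2 huv)
    have h4 : ‖Lam v u (x i)‖ < R * Nm u (x i) := by
      apply lt_of_pow_lt_pow_left₀ 2 h2.le
      rw [h1, mul_pow, hR2]
      nlinarith
    change ‖Lam v u (x i) / ((R * Nm u (x i) : ℝ) : ℂ)‖ < 1
    rw [norm_div, Complex.norm_real, Real.norm_of_nonneg h2.le, div_lt_one h2]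
    exact h4
  have hray : ∀ i j, i ≠ j → ∃ s : ℝ, 1 < s ∧ w i j = y i + s • (y j - y i) := by
    intro i j hij
    have h1 := hMp i j hij
    have h2 := hline i j hij u
    have h3 := hMx i
    have h4 := hMx j
    refine ⟨t i j * Nm u (x j) / Nm u (p i j), ?_, ?_⟩
    · rw [one_lt_div h1, h2]
      have := mul_pos (sub_pos.2 (ht i j hij)) h3
      nlinarith
    · change Lam v u (p i j) / ((R * Nm u (p i j) : ℝ) : ℂ) = Lam v u (x i) / ((R * Nm u (x i) : ℝ) : ℂ) +
        (t i j * Nm u (x j) / Nm u (p i j) : ℝ) • (Lam v u (x j) / ((R * Nm u (x j) : ℝ) : ℂ) -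
          Lam v u (x i) / ((R * Nm u (x i) : ℝ) : ℂ))
      have h5 : Lam v u (p i j) = Lam v u (x i) + (t i j : ℂ) * (Lam v u (x j) - Lam v u (x i)) := by
        rw [hp2 i j hij, Lam_line]
      rw [h5, Complex.real_smul]
      have h6 : ((Nm u (p i j) : ℝ) : ℂ) ≠ 0 := by exact_mod_cast h1.ne'
      have h7 : ((Nm u (x i) : ℝ) : ℂ) ≠ 0 := by exact_mod_cast h3.ne'
      have h8 : ((Nm u (x j) : ℝ) : ℂ) ≠ 0 := by exact_mod_cast h4.ne'
      have h9 : ((Nm u (p i j) : ℝ) : ℂ) = Nm u (x i) + t i j * (Nm u (x j) - Nm u (x i)) := by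
        rw [h2]; push_cast; ring
      push_cast
      field_simp
      rw [h9]
      ring
  have hwbr : ∀ i j, i ≠ j → br (spin (p i j)) u ≠ 0 ∧
      w i j * R * br (spin (p i j)) u = br (spin (p i j)) v := by
    intro i j hij
    have h1 := hMp i j hij
    have h0 : br (spin (p i j)) u ≠ 0 := by
      intro h0
      have h2 := hns i j hij u
      rw [h0, map_zero] at h2
      have := mul_pos (hκ i j) h1
      linarith
    refine ⟨h0, ?_⟩
    have h2 := hκ' i j hij v u
    have h3 := hκ' i j hij u u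
    rw [Lam_self] at h3
    have h4 : (starRingEnd ℂ) (br (spin (p i j)) u) ≠ 0 := by
      rw [Ne, map_eq_zero]
      exact h0
    have h6 : ((Nm u (p i j) : ℝ) : ℂ) ≠ 0 := by exact_mod_cast h1.ne'
    have h7 : ((κ i j : ℝ) : ℂ) ≠ 0 := by exact_mod_cast (hκ i j).ne'
    change Lam v u (p i j) / ((R * Nm u (p i j) : ℝ) : ℂ) * R * br (spin (p i j)) u = _
    push_cast
    field_simp
    apply mul_left_cancel₀ h7
    apply mul_right_cancel₀ h4
    linear_combination (-(br (spin (p i j)) u * (starRingEnd ℂ) (br (spin (p i j)) u))) * h2 +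
      (br (spin (p i j)) v * (starRingEnd ℂ) (br (spin (p i j)) u)) * h3
  have hprod : ∀ i, ∏ j ∈ Finset.univ.erase i, w i j = -(B / (A * R ^ 3)) := by
    intro i
    have h1 : (∏ j ∈ Finset.univ.erase i, w i j) * R ^ 3 *
        ∏ j ∈ Finset.univ.erase i, br (spin (p i j)) u =
        ∏ j ∈ Finset.univ.erase i, br (spin (p i j)) v := by
      rw [← Finset.prod_congr rfl fun j hj => (hwbr i j (Finset.ne_of_mem_erase hj).symm).2,
        Finset.prod_mul_distrib, Finset.prod_mul_distrib, Finset.prod_const,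
        Finset.card_erase_of_mem (Finset.mem_univ i)]
      simp
    have h2 : ∏ j ∈ Finset.univ.erase i, br (spin (p i j)) u ≠ 0 :=
      Finset.prod_ne_zero_iff.2 fun j hj => (hwbr i j (Finset.ne_of_mem_erase hj).symm).1
    have h3 := h i
    rw [← h1] at h3
    have h4 : (A * ((∏ j ∈ Finset.univ.erase i, w i j) * R ^ 3) + B) *
        ∏ j ∈ Finset.univ.erase i, br (spin (p i j)) u = 0 := by linear_combination h3
    have h5 := (mul_eq_zero.1 h4).resolve_right h2
    field_simp
    linear_combination h5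
  have HC : Cfg y w (-(B / (A * R ^ 3))) :=
    ⟨hw1, hray, fun i j k l h1 h2 h3 h4 h5 h6 => by
      rw [← hprod i, prod_three _ i j k l h1 h2 h3 h4 h5 h6]⟩
  -- general position
  have hwinj : ∀ i j k, i ≠ j → i ≠ k → j ≠ k → w i j ≠ w i k := by
    intro i j k hij hik hjk heq
    have h1 := hwbr i j hij
    have h2 := hwbr i k hik
    have h3 : br u v * br (spin (p i j)) (spin (p i k)) = 0 := by
      have e : br u v * br (spin (p i j)) (spin (p i k)) =
          br (spin (p i j)) u * br (spin (p i k)) v - br (spin (p i j)) v * br (spin (p i k)) u := by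
        unfold br
        ring
      rw [e, ← h1.2, ← h2.2, heq]
      ring
    have h4 := (mul_eq_zero.1 h3).resolve_left huv
    exact hgp i j k hij hik hjk (spin_inj (hp1 i j hij) (hp1 i k hik) h4)
  have hyne : ∀ i j, i ≠ j → y i ≠ y j := by
    intro i j hij heq
    obtain ⟨s, hs, h1⟩ := hray i j hij
    rw [heq, sub_self, smul_zero, add_zero] at h1
    have h2 := hw1 i j hij
    rw [h1] at h2
    have h3 := hy1 j
    linarith
  -- a vertex with two others in the same direction
  have hdir : ∀ i j k, i ≠ j → i ≠ k → j ≠ k → ∀ τ : ℝ, 0 < τ → y k - y i = τ • (y j - y i) → False := by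
    intro i j k hij hik hjk τ hτ heq
    obtain ⟨s, hs, h1⟩ := hray i j hij
    obtain ⟨s', hs', h2⟩ := hray i k hik
    rw [heq, smul_smul] at h2
    have h3 := hw1 i j hij
    have h4 := hw1 i k hik
    rw [h1] at h3
    rw [h2] at h4
    have h5 := unique_root (hy1 i) (by linarith) (mul_pos (by linarith) hτ) h3 h4
    apply hwinj i j k hij hik hjk
    rw [h1, h2, ← h5]
  refine HC.false fun i j k hij hik hjk h0 => ?_
  have hd : y j - y i ≠ 0 := sub_ne_zero.2 (hyne i j hij).symm
  obtain ⟨τ, hτ⟩ := exists_tau hd (e := y k - y i) (by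
    unfold ori at h0
    simp only [Complex.sub_re, Complex.sub_im]
    linarith)
  rcases lt_trichotomy τ 0 with hneg | hz | hpos
  · refine hdir j i k hij.symm hjk hik (1 - τ) (by linarith) ?_
    rw [Complex.real_smul] at hτ ⊢
    push_cast
    linear_combination hτ
  · rw [hz, zero_smul, sub_eq_zero] at hτ
    exact hyne i k hik hτ.symm
  · exact hdir i j k hij hik hjk τ hpos hτ

/-- the tangent case: all ratios are finite -/
theorem three_ne {f g : Fin 3 → ℂ} (h1 : ∀ r s, r ≠ s → f r = 0 → f s = 0 → False)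
    (h2 : ∀ r, f r = 0 → g r = 0 → False)
    (h : g 0 * f 1 * f 2 + f 0 * g 1 * f 2 + f 0 * f 1 * g 2 = 0) : ∀ r, f r ≠ 0 := by
  intro r hr
  fin_cases r
  · have e : f 0 = 0 := hr
    rw [e] at h
    have h3 : g 0 * f 1 * f 2 = 0 := by linear_combination h
    rcases mul_eq_zero.1 h3 with h4 | h4
    · rcases mul_eq_zero.1 h4 with h5 | h5
      · exact h2 0 e h5
      · exact h1 0 1 (by decide) e h5
    · exact h1 0 2 (by decide) e h4
  · have e : f 1 = 0 := hr
    rw [e] at h
    have h3 : f 0 * g 1 * f 2 = 0 := by linear_combination h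
    rcases mul_eq_zero.1 h3 with h4 | h4
    · rcases mul_eq_zero.1 h4 with h5 | h5
      · exact h1 1 0 (by decide) e h5
      · exact h2 1 e h5
    · exact h1 1 2 (by decide) e h4
  · have e : f 2 = 0 := hr
    rw [e] at h
    have h3 : f 0 * f 1 * g 2 = 0 := by linear_combination h
    rcases mul_eq_zero.1 h3 with h4 | h4
    · rcases mul_eq_zero.1 h4 with h5 | h5
      · exact h1 2 0 (by decide) e h5
      · exact h1 2 1 (by decide) e h5
    · exact h2 2 e h4

theorem exists_succAbove {i j : Fin 4} (hij : i ≠ j) : ∃ r : Fin 3, i.succAbove r = j :=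
  Fin.exists_succAbove_eq hij.symm

/-- the tangent case -/
theorem case_tangent (hx : ∀ i, ∑ k : Fin 3, (x i k) ^ 2 < 1)
    (hp1 : ∀ i j, i ≠ j → ∑ k : Fin 3, (p i j k) ^ 2 = 1) (t : Fin 4 → Fin 4 → ℝ)
    (ht : ∀ i j, i ≠ j → 1 < t i j) (hp2 : ∀ i j, i ≠ j → p i j = x i + t i j • (x j - x i))
    (hgp : ∀ i j k, i ≠ j → i ≠ k → j ≠ k → p i j ≠ p i k) {u v : ℂ × ℂ} (huv : br u v ≠ 0)
    (h : ∀ i : Fin 4,
      br (spin (p i (i.succAbove 0))) v * br (spin (p i (i.succAbove 1))) u *
          br (spin (p i (i.succAbove 2))) u +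
        br (spin (p i (i.succAbove 0))) u * br (spin (p i (i.succAbove 1))) v *
          br (spin (p i (i.succAbove 2))) u +
        br (spin (p i (i.succAbove 0))) u * br (spin (p i (i.succAbove 1))) u *
          br (spin (p i (i.succAbove 2))) v = 0) : False := by
  obtain ⟨hu, hv⟩ := br_ne huv
  have hf : ∀ i j, i ≠ j → br (spin (p i j)) u ≠ 0 := by
    intro i j hij
    obtain ⟨r, rfl⟩ := exists_succAbove hij
    refine three_ne (f := fun r => br (spin (p i (i.succAbove r))) u)
      (g := fun r => br (spin (p i (i.succAbove r))) v) ?_ ?_ (h i) r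
    · intro r s hrs h1 h2
      have h3 := br_par hu h1 h2
      have hne : i.succAbove r ≠ i.succAbove s := fun e => hrs (Fin.succAbove_right_injective e)
      exact hgp i _ _ (Fin.succAbove_ne i r).symm (Fin.succAbove_ne i s).symm hne
        (spin_inj (hp1 i _ (Fin.succAbove_ne i r).symm) (hp1 i _ (Fin.succAbove_ne i s).symm) h3)
    · intro r h1 h2
      exact br_indep (spin_ne _) huv h1 h2
  have hratio : ∀ i j, i ≠ j → 0 < Nm u (p i j) ∧
      br (spin (p i j)) v / br (spin (p i j)) u = Lam v u (p i j) / (Nm u (p i j) : ℂ) := by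
    intro i j hij
    obtain ⟨κ, hκ, hκ'⟩ := exists_kappa (hp1 i j hij)
    have h0 := hf i j hij
    have h2 := hκ' v u
    have h3 := hκ' u u
    have h4 : (starRingEnd ℂ) (br (spin (p i j)) u) ≠ 0 := by
      rw [Ne, map_eq_zero]
      exact h0
    rw [Lam_self] at h3
    have h5 : Complex.normSq (br (spin (p i j)) u) = κ * Nm u (p i j) := by
      rw [Complex.mul_conj] at h3
      exact_mod_cast h3
    have h6 : 0 < Nm u (p i j) := by
      have := Complex.normSq_pos.2 h0
      rw [h5] at this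
      exact pos_of_mul_pos_right this hκ.le
    refine ⟨h6, ?_⟩
    have h7 : ((Nm u (p i j) : ℝ) : ℂ) ≠ 0 := by exact_mod_cast h6.ne'
    have h8 : (κ : ℂ) ≠ 0 := by exact_mod_cast hκ.ne'
    rw [div_eq_div_iff h0 h7]
    apply mul_left_cancel₀ h8
    apply mul_right_cancel₀ h4
    linear_combination (-(br (spin (p i j)) v * (starRingEnd ℂ) (br (spin (p i j)) u))) * h3 +
      (br (spin (p i j)) u * (starRingEnd ℂ) (br (spin (p i j)) u)) * h2
  have hsum : ∀ i, ∑ j ∈ Finset.univ.erase i, Lam v u (p i j) / (Nm u (p i j) : ℂ) = 0 := by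
    intro i
    rw [← Finset.sum_congr rfl fun j hj => (hratio i j (Finset.ne_of_mem_erase hj).symm).2]
    have e : Finset.univ.erase i = Finset.univ.image i.succAbove := by
      revert i; decide
    rw [e, Finset.sum_image (fun a _ b _ hab => Fin.succAbove_right_injective hab),
      Fin.sum_univ_three]
    have h0 := hf i (i.succAbove 0) (Fin.succAbove_ne i 0).symm
    have h1 := hf i (i.succAbove 1) (Fin.succAbove_ne i 1).symm
    have h2 := hf i (i.succAbove 2) (Fin.succAbove_ne i 2).symm
    have h3 := h i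
    field_simp
    linear_combination h3
  have hNl : ∀ i j, i ≠ j → Nm u (p i j) = Nm u (x i) + t i j * (Nm u (x j) - Nm u (x i)) := by
    intro i j hij
    rw [hp2 i j hij, Nm_line]
  have hLl : ∀ i j, i ≠ j → Lam v u (p i j) =
      Lam v u (x i) + (t i j : ℂ) * (Lam v u (x j) - Lam v u (x i)) := by
    intro i j hij
    rw [hp2 i j hij, Lam_line]
  have hre := additive (fun i => (Lam v u (x i)).re) (fun i => Nm u (x i)) t
    (fun i => Nm_pos hu (hx i)) ht
    (fun i j hij => by rw [← hNl i j hij]; exact (hratio i j hij).1)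
    (fun i => by
      have h1 := congrArg Complex.re (hsum i)
      rw [Complex.re_sum, Complex.zero_re] at h1
      rw [← h1]
      refine Finset.sum_congr rfl fun j hj => ?_
      have hij := (Finset.ne_of_mem_erase hj).symm
      rw [Complex.div_ofReal_re, hLl i j hij, ← hNl i j hij]
      simp)
  have him := additive (fun i => (Lam v u (x i)).im) (fun i => Nm u (x i)) t
    (fun i => Nm_pos hu (hx i)) ht
    (fun i j hij => by rw [← hNl i j hij]; exact (hratio i j hij).1)
    (fun i => by
      have h1 := congrArg Complex.im (hsum i)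
      rw [Complex.im_sum, Complex.zero_im] at h1
      rw [← h1]
      refine Finset.sum_congr rfl fun j hj => ?_
      have hij := (Finset.ne_of_mem_erase hj).symm
      rw [Complex.div_ofReal_im, hLl i j hij, ← hNl i j hij]
      simp)
  have hL : ∀ i, Lam v u (x i) = 0 := fun i => Complex.ext (hre i) (him i)
  have hbv : ∀ i j, i ≠ j → br (spin (p i j)) v = 0 := by
    intro i j hij
    have h1 := (hratio i j hij).2
    rw [hLl i j hij, hL, hL, sub_self, mul_zero, add_zero, zero_div, div_eq_zero_iff] at h1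
    exact h1.resolve_right (hf i j hij)
  have h1 := hbv 0 1 (by decide)
  have h2 := hbv 0 2 (by decide)
  exact hgp 0 1 2 (by decide) (by decide) (by decide)
    (spin_inj (hp1 0 1 (by decide)) (hp1 0 2 (by decide)) (br_par hv h1 h2))

end

theorem fourth : ∀ i j k : Fin 4, i ≠ j → i ≠ k → j ≠ k →
    ∃ l : Fin 4, ∀ m, m ≠ l → m = i ∨ m = j ∨ m = k := by decide

/-- three points on a line -/
theorem collinear_three {x : Fin 4 → Fin 3 → ℝ} {i j k l : Fin 4}
    (hl : ∀ m, m ≠ l → m = i ∨ m = j ∨ m = k) {q : Fin 3 → ℝ} {t t' : ℝ} (ht : 0 < t) (ht' : 0 < t')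
    (h : q = x i + t • (x j - x i)) (h' : q = x i + t' • (x k - x i)) :
    Collinear ℝ (x '' {m | m ≠ l}) := by
  rw [collinear_iff_exists_forall_eq_smul_vadd]
  refine ⟨x i, q - x i, ?_⟩
  rintro _ ⟨m, hm, rfl⟩
  rcases hl m hm with rfl | rfl | rfl
  · exact ⟨0, by simp⟩
  · refine ⟨t⁻¹, ?_⟩
    rw [h, add_sub_cancel_left, smul_smul, inv_mul_cancel₀ ht.ne', one_smul, vadd_eq_add,
      sub_add_cancel]
  · refine ⟨t'⁻¹, ?_⟩
    rw [h', add_sub_cancel_left, smul_smul, inv_mul_cancel₀ ht'.ne', one_smul, vadd_eq_add,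
      sub_add_cancel]

/-- The configuration polynomials of at most four points are linearly independent. -/
theorem result (n : ℕ) (hn : n ≤ 4) (x : Fin n → Fin 3 → ℝ) (p : Fin n → Fin n → Fin 3 → ℝ)
    (hinj : Function.Injective x) (hx : ∀ i, ∑ k : Fin 3, (x i k) ^ 2 < 1)
    (hp : ∀ i j, i ≠ j → (∑ k : Fin 3, (p i j k) ^ 2 = 1) ∧
      ∃ t : ℝ, 0 < t ∧ p i j = x i + t • (x j - x i)) :
    LinearIndependent ℂ (fun i : Fin n =>
        ∏ j ∈ Finset.univ.erase i,
          (if p i j 2 = 1 then (1 : Polynomial ℂ) else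
            Polynomial.X - Polynomial.C
              (((p i j 0 : ℂ) + (p i j 1 : ℂ) * Complex.I) / (1 - (p i j 2 : ℂ))))) := by
  classical
  rcases Nat.lt_or_ge n 4 with h3 | h4
  · rcases Nat.eq_zero_or_pos n with h0 | h0
    · subst h0
      exact linearIndependent_empty_type
    · refine CollinearPlusOne.result n x p hinj hx hp ⟨0, h0⟩ ?_
      have hsub : x '' {i | i ≠ ⟨0, h0⟩} ⊆
          {x ⟨1 % n, Nat.mod_lt 1 h0⟩, x ⟨2 % n, Nat.mod_lt 2 h0⟩} := by
        rintro _ ⟨⟨i, hi⟩, hne, rfl⟩
        have hi0 : i ≠ 0 := fun h => hne (Fin.ext h)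
        interval_cases n
        · omega
        · have : i = 1 := by omega
          subst this
          left; rfl
        · have : i = 1 ∨ i = 2 := by omega
          rcases this with rfl | rfl
          · left; rfl
          · right; rfl
      exact (collinear_pair ℝ _ _).subset hsub
  · obtain rfl : n = 4 := le_antisymm hn h4
    by_cases hc : ∃ i j k : Fin 4, i ≠ j ∧ i ≠ k ∧ j ≠ k ∧ p i j = p i k
    · obtain ⟨i, j, k, hij, hik, hjk, heq⟩ := hc
      obtain ⟨l, hl⟩ := fourth i j k hij hik hjk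
      obtain ⟨-, t, ht, h1⟩ := hp i j hij
      obtain ⟨-, t', ht', h2⟩ := hp i k hik
      exact CollinearPlusOne.result 4 x p hinj hx hp l
        (collinear_three hl ht ht' h1 (heq.trans h2))
    · have hgp : ∀ i j k, i ≠ j → i ≠ k → j ≠ k → p i j ≠ p i k := fun i j k h1 h2 h3 h4 =>
        hc ⟨i, j, k, h1, h2, h3, h4⟩
      have hex : ∀ i j, ∃ t : ℝ, i ≠ j → 1 < t ∧ p i j = x i + t • (x j - x i) := by
        intro i j
        by_cases hij : i = j
        · exact ⟨0, fun h => absurd hij h⟩
        · obtain ⟨h0, t, ht, h1⟩ := hp i j hij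
          exact ⟨t, fun _ => ⟨t_gt_one (hx i) (hx j) h0 t ht h1, h1⟩⟩
      choose t ht using hex
      rw [Fintype.linearIndependent_iff]
      intro g hg
      by_contra hcon
      have hg0 : g ≠ 0 := by
        rintro rfl
        exact hcon fun i => rfl
      obtain ⟨m, hm, hG⟩ := exists_G (fun i j => spin (p i j)) g hg0
        (fun z hz => relation p g hg z hz)
      obtain ⟨u, v, huv, hcase⟩ := normal_form m hm
      rcases hcase with ⟨A, B, hAB, h1⟩ | ⟨B, hB, h1⟩
      · refine case_two hx (fun i j hij => (hp i j hij).1) t (fun i j hij => (ht i j hij).1)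
          (fun i j hij => (ht i j hij).2) hgp huv A B hAB fun i => ?_
        rw [prod_erase, prod_erase, ← h1]
        exact hG i
      · refine case_tangent hx (fun i j hij => (hp i j hij).1) t (fun i j hij => (ht i j hij).1)
          (fun i j hij => (ht i j hij).2) hgp huv fun i => ?_
        have h2 := hG i
        rw [h1] at h2
        exact (mul_eq_zero.1 h2).resolve_left hB

end Pool.Agent.Results.MP_1fedf0_gt.FourPoints
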