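import Mathlib

/-!
# Well separated configurations: linear independence of the hyperbolic configuration polynomials

Points of hyperbolic 3-space are points of the open unit ball (Klein model).  For a point `x` of the
ball there is a hermitian norm `nn x` on the spinor space `ℂ²`, coming from a matrix `GG x` in
`SL(2, ℂ)` which moves `x` to the origin.  If `w` is a spinor representing the endpoint of the ray
from `x` through `y` then the norm of `w` at `y` is `exp (-d/2)` times its norm at `x`, where `d` is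
the hyperbolic distance, and the norms at two points differ at most by the factor `exp (d/2)`.
Given a linear relation between the polynomials, take the index `k` for which the suitably normalised
coefficient is largest and evaluate the relation at a good point of the sphere (found by averaging
over the sphere, as seen from `x k`): the `k`-th term dominates the sum of the others.
-/

set_option autoImplicit false

namespace Pool.Agent.Results.MP_1fedf0_gt.Separated

open MeasureTheory Set Real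
open scoped ENNReal

abbrev E2 : Type := WithLp 2 (ℂ × ℂ)

theorem int_q (q : ℕ) : ∫ y in Ioi (0 : ℝ), y ^ q * rexp (-y ^ 2) = (1 / 2) * Gamma ((q + 1) / 2) := by
  have h := integral_rpow_mul_exp_neg_mul_rpow (p := 2) (q := q) (b := 1) two_pos
    (by have : (0 : ℝ) ≤ q := by positivity
        linarith) one_pos
  simp only [one_rpow, one_mul, neg_mul] at h
  rw [← h]
  apply setIntegral_congr_fun measurableSet_Ioi
  intro y hy
  simp only [rpow_natCast]
  norm_num

theorem int_c0 : ∫ w : ℂ, rexp (-‖w‖ ^ 2) = π := by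
  have h := integral_fun_norm_addHaar (volume : Measure ℂ) (fun y : ℝ => rexp (-y ^ 2))
  rw [h, Complex.finrank_real_complex]
  have hb : (volume : Measure ℂ).real (Metric.ball 0 1) = π := by
    simp [Measure.real, Complex.volume_ball]
  rw [hb]
  have e : ∫ y in Ioi (0 : ℝ), y ^ (2 - 1) • rexp (-y ^ 2) = 1 / 2 := by
    have := int_q 1
    norm_num at this
    simpa using this
  rw [e]
  simp
  ring

theorem int_c1 : ∫ w : ℂ, rexp (-‖w‖ ^ 2) / ‖w‖ = π * √π := by
  have h := integral_fun_norm_addHaar (volume : Measure ℂ) (fun y : ℝ => rexp (-y ^ 2) / y)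
  rw [h, Complex.finrank_real_complex]
  have hb : (volume : Measure ℂ).real (Metric.ball 0 1) = π := by
    simp [Measure.real, Complex.volume_ball]
  rw [hb]
  have e : ∫ y in Ioi (0 : ℝ), y ^ (2 - 1) • (rexp (-y ^ 2) / y) = √π / 2 := by
    have h0 := int_q 0
    have h1 : ∫ y in Ioi (0 : ℝ), y ^ (2 - 1) • (rexp (-y ^ 2) / y)
        = ∫ y in Ioi (0 : ℝ), y ^ 0 * rexp (-y ^ 2) := by
      apply setIntegral_congr_fun measurableSet_Ioi
      intro y hy
      have hy' : y ≠ 0 := (mem_Ioi.1 hy).ne'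
      simp only [smul_eq_mul]
      field_simp
      norm_num
    rw [h1, h0]
    norm_num
    rw [Gamma_one_half_eq]
    ring
  rw [e]
  simp
  ring

theorem vol_E2 : (volume : Measure E2).real (Metric.ball 0 1) = π ^ 2 / 2 := by
  have hdim : Module.finrank ℝ E2 = 4 := by
    have h1 : Module.finrank ℝ E2 = Module.finrank ℝ (ℂ × ℂ) :=
      LinearEquiv.finrank_eq (WithLp.linearEquiv 2 ℝ (ℂ × ℂ))
    rw [h1, Module.finrank_prod, Complex.finrank_real_complex]
  have h := InnerProductSpace.volume_ball (E := E2) 0 1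
  rw [hdim] at h
  have hG : Gamma ((4 : ℕ) / 2 + 1) = 2 := by
    have := Gamma_nat_eq_factorial 2
    norm_num at this ⊢
  rw [hG] at h
  rw [Measure.real, h]
  simp only [ENNReal.ofReal_one, one_pow, one_mul]
  rw [ENNReal.toReal_ofReal (by positivity)]
  have : √π ^ 4 = π ^ 2 := by
    have h2 : √π ^ 2 = π := Real.sq_sqrt pi_pos.le
    calc √π ^ 4 = (√π ^ 2) ^ 2 := by ring
      _ = π ^ 2 := by rw [h2]
  rw [this]

theorem int_E : ∫ t : E2, rexp (-‖t‖ ^ 2) / ‖t‖ = π ^ 2 * √π / 2 := by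
  have h := integral_fun_norm_addHaar (volume : Measure E2) (fun y : ℝ => rexp (-y ^ 2) / y)
  have hdim : Module.finrank ℝ E2 = 4 := by
    have h1 : Module.finrank ℝ E2 = Module.finrank ℝ (ℂ × ℂ) :=
      LinearEquiv.finrank_eq (WithLp.linearEquiv 2 ℝ (ℂ × ℂ))
    rw [h1, Module.finrank_prod, Complex.finrank_real_complex]
  rw [h, hdim, vol_E2]
  have e : ∫ y in Ioi (0 : ℝ), y ^ (4 - 1) • (rexp (-y ^ 2) / y) = √π / 4 := by
    have h0 := int_q 2
    have h1 : ∫ y in Ioi (0 : ℝ), y ^ (4 - 1) • (rexp (-y ^ 2) / y)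
        = ∫ y in Ioi (0 : ℝ), y ^ 2 * rexp (-y ^ 2) := by
      apply setIntegral_congr_fun measurableSet_Ioi
      intro y hy
      have hy' : y ≠ 0 := (mem_Ioi.1 hy).ne'
      simp only [smul_eq_mul]
      field_simp
      try norm_num
    rw [h1, h0]
    have : ((2 : ℕ) + 1 : ℝ) / 2 = 1 / 2 + 1 := by norm_num
    rw [this, Gamma_add_one (by norm_num), Gamma_one_half_eq]
    ring
  rw [e]
  simp
  ring

/-- The symplectic form. -/
noncomputable def brE (a b : E2) : ℂ := a.ofLp.1 * b.ofLp.2 - a.ofLp.2 * b.ofLp.1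

/-- the isometry with first component `brE · v` -/
noncomputable def phiL (v : E2) : E2 →ₗ[ℝ] E2 where
  toFun t := WithLp.toLp 2 (t.ofLp.1 * v.ofLp.2 - t.ofLp.2 * v.ofLp.1,
    t.ofLp.1 * (starRingEnd ℂ) v.ofLp.1 + t.ofLp.2 * (starRingEnd ℂ) v.ofLp.2)
  map_add' a b := by
    apply WithLp.ofLp_injective
    apply Prod.ext <;> simp <;> ring
  map_smul' c a := by
    apply WithLp.ofLp_injective
    apply Prod.ext <;> simp <;> ring

theorem phi_norm (v : E2) (hv : ‖v‖ = 1) (t : E2) : ‖phiL v t‖ = ‖t‖ := by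
  have h1 : ‖phiL v t‖ ^ 2 = ‖t‖ ^ 2 := by
    have hv2 : ‖v.ofLp.1‖ ^ 2 + ‖v.ofLp.2‖ ^ 2 = 1 := by
      have := WithLp.prod_norm_sq_eq_of_L2 v
      rw [hv] at this
      simpa using this.symm
    rw [WithLp.prod_norm_sq_eq_of_L2, WithLp.prod_norm_sq_eq_of_L2]
    have key : ∀ a b c d : ℂ, ‖a * d - b * c‖ ^ 2 + ‖a * (starRingEnd ℂ) c + b * (starRingEnd ℂ) d‖ ^ 2
        = (‖a‖ ^ 2 + ‖b‖ ^ 2) * (‖c‖ ^ 2 + ‖d‖ ^ 2) := by
      intro a b c d
      simp only [Complex.sq_norm, Complex.normSq_apply, Complex.sub_re, Complex.mul_re,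
        Complex.sub_im, Complex.mul_im, Complex.add_re, Complex.add_im, Complex.conj_re, Complex.conj_im]
      ring
    have := key t.ofLp.1 t.ofLp.2 v.ofLp.1 v.ofLp.2
    rw [hv2, mul_one] at this
    exact this
  have h2 := norm_nonneg (phiL v t)
  have h3 := norm_nonneg t
  nlinarith

noncomputable def phi (v : E2) (hv : ‖v‖ = 1) : E2 ≃ₗᵢ[ℝ] E2 :=
  LinearIsometry.toLinearIsometryEquiv ⟨phiL v, phi_norm v hv⟩ rfl

theorem phi_fst (v : E2) (hv : ‖v‖ = 1) (t : E2) : (phi v hv t).ofLp.1 = brE t v := rfl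

theorem lint_A (v : E2) (hv : ‖v‖ = 1) :
    ∫⁻ t : E2, ENNReal.ofReal (rexp (-‖t‖ ^ 2) / ‖brE t v‖) = ENNReal.ofReal (π ^ 2 * √π) := by
  have h1 : ∫⁻ t : E2, ENNReal.ofReal (rexp (-‖t‖ ^ 2) / ‖brE t v‖)
      = ∫⁻ t : E2, ENNReal.ofReal (rexp (-‖t‖ ^ 2) / ‖t.ofLp.1‖) := by
    have hmp := (phi v hv).measurePreserving
    rw [← hmp.lintegral_comp (f := fun t : E2 => ENNReal.ofReal (rexp (-‖t‖ ^ 2) / ‖t.ofLp.1‖))]
    · apply lintegral_congr
      intro t
      rw [phi_fst, (phi v hv).norm_map]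
    · apply ENNReal.measurable_ofReal.comp
      apply Measurable.div
      · fun_prop
      · fun_prop
  rw [h1]
  have h2 := (WithLp.volume_preserving_ofLp (U := ℂ) (V := ℂ)).lintegral_comp
    (f := fun z : ℂ × ℂ => ENNReal.ofReal (rexp (-‖z.1‖ ^ 2) / ‖z.1‖) * ENNReal.ofReal (rexp (-‖z.2‖ ^ 2)))
    (by
      apply Measurable.fun_mul
      · apply ENNReal.measurable_ofReal.comp
        apply Measurable.div <;> fun_prop
      · apply ENNReal.measurable_ofReal.comp
        fun_prop)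
  have h3 : ∫⁻ t : E2, ENNReal.ofReal (rexp (-‖t‖ ^ 2) / ‖t.ofLp.1‖)
      = ∫⁻ t : E2, ENNReal.ofReal (rexp (-‖t.ofLp.1‖ ^ 2) / ‖t.ofLp.1‖) * ENNReal.ofReal (rexp (-‖t.ofLp.2‖ ^ 2)) := by
    apply lintegral_congr
    intro t
    rw [← ENNReal.ofReal_mul (by positivity)]
    congr 1
    have : ‖t‖ ^ 2 = ‖t.ofLp.1‖ ^ 2 + ‖t.ofLp.2‖ ^ 2 := WithLp.prod_norm_sq_eq_of_L2 t
    rw [this, neg_add, Real.exp_add]
    ring
  rw [h3]
  refine h2.trans ?_
  rw [Measure.volume_eq_prod, lintegral_prod_mul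
    (f := fun z : ℂ => ENNReal.ofReal (rexp (-‖z‖ ^ 2) / ‖z‖))
    (g := fun w : ℂ => ENNReal.ofReal (rexp (-‖w‖ ^ 2)))]
  · have i0 : Integrable (fun w : ℂ => rexp (-‖w‖ ^ 2)) := by
      apply Integrable.of_integral_ne_zero
      rw [int_c0]; exact pi_ne_zero
    have i1 : Integrable (fun w : ℂ => rexp (-‖w‖ ^ 2) / ‖w‖) := by
      apply Integrable.of_integral_ne_zero
      rw [int_c1]; positivity
    rw [← ofReal_integral_eq_lintegral_ofReal i1 (Filter.Eventually.of_forall fun w => by positivity),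
      ← ofReal_integral_eq_lintegral_ofReal i0 (Filter.Eventually.of_forall fun w => by positivity),
      int_c0, int_c1, ← ENNReal.ofReal_mul (by positivity)]
    congr 1
    ring
  · apply Measurable.aemeasurable
    apply ENNReal.measurable_ofReal.comp
    apply Measurable.div <;> fun_prop
  · apply Measurable.aemeasurable
    apply ENNReal.measurable_ofReal.comp
    fun_prop

/-- `brE · v` as a real linear map. -/
noncomputable def brL (v : E2) : E2 →ₗ[ℝ] ℂ where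
  toFun t := brE t v
  map_add' a b := by simp [brE]; ring
  map_smul' c a := by simp [brE]; ring

theorem null_br (v : E2) (hv : v ≠ 0) : volume {t : E2 | brE t v = 0} = 0 := by
  have h1 : {t : E2 | brE t v = 0} = ((LinearMap.ker (brL v) : Submodule ℝ E2) : Set E2) := by
    ext t
    simp [brL]
  rw [h1]
  apply Measure.addHaar_submodule
  intro htop
  have hmem : (WithLp.toLp 2 ((starRingEnd ℂ) v.ofLp.2, -(starRingEnd ℂ) v.ofLp.1) : E2)
      ∈ (LinearMap.ker (brL v) : Submodule ℝ E2) := by rw [htop]; trivial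
  rw [LinearMap.mem_ker] at hmem
  simp only [brL, brE, LinearMap.coe_mk, AddHom.coe_mk] at hmem
  have h2 : ((‖v‖ ^ 2 : ℝ) : ℂ) = 0 := by
    rw [WithLp.prod_norm_sq_eq_of_L2]
    push_cast
    rw [← Complex.mul_conj' , ← Complex.mul_conj']
    simp only [WithLp.fst, WithLp.snd]
    linear_combination hmem
  have h3 : ‖v‖ ^ 2 = 0 := by exact_mod_cast h2
  have h4 : ‖v‖ = 0 := by simpa using h3
  exact hv (norm_eq_zero.1 h4)

theorem brE_smul_right (t v : E2) (c : ℝ) : brE t (c • v) = c * brE t v := by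
  simp [brE]; ring

theorem meas_br (v : E2) : Measurable (fun t : E2 => ‖brE t v‖) := by
  unfold brE
  fun_prop

theorem lint_A' (v : E2) (hv : v ≠ 0) :
    ∫⁻ t : E2, ENNReal.ofReal (rexp (-‖t‖ ^ 2) * (‖v‖ / ‖brE t v‖)) = ENNReal.ofReal (π ^ 2 * √π) := by
  have hn : ‖v‖ ≠ 0 := norm_ne_zero_iff.2 hv
  have hu : ‖(‖v‖⁻¹ • v)‖ = 1 := by
    rw [norm_smul, norm_inv, norm_norm, inv_mul_cancel₀ hn]
  rw [← lint_A (‖v‖⁻¹ • v) hu]
  apply lintegral_congr
  intro t
  congr 1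
  rw [brE_smul_right, norm_mul, Complex.norm_real, norm_inv, norm_norm]
  rw [mul_div_assoc', div_eq_div_iff_comm]
  by_cases hb : ‖brE t v‖ = 0
  · rw [hb]; simp
  · field_simp

theorem exists_good {ι : Type*} (J : Finset ι) (c : ι → ℝ) (v : ι → E2) (hc : ∀ j ∈ J, 0 ≤ c j)
    (hv : ∀ j ∈ J, v j ≠ 0) (N : Set E2) (hN : volume N = 0) :
    ∃ t : E2, t ∉ N ∧ t ≠ 0 ∧ (∀ j ∈ J, brE t (v j) ≠ 0) ∧
      ∑ j ∈ J, c j * (‖t‖ * ‖v j‖ / ‖brE t (v j)‖) ≤ 2 * ∑ j ∈ J, c j := by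
  classical
  let h : E2 → ℝ≥0∞ := fun t => ENNReal.ofReal (rexp (-‖t‖ ^ 2) / ‖t‖)
  have hmeas : Measurable h := by
    apply ENNReal.measurable_ofReal.comp
    apply Measurable.div <;> fun_prop
  have hint : ∫⁻ t, h t = ENNReal.ofReal (π ^ 2 * √π / 2) := by
    have i1 : Integrable (fun w : E2 => rexp (-‖w‖ ^ 2) / ‖w‖) := by
      apply Integrable.of_integral_ne_zero
      rw [int_E]; positivity
    rw [← int_E, ofReal_integral_eq_lintegral_ofReal i1 (Filter.Eventually.of_forall fun w => by positivity)]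
  let μ : Measure E2 := volume.withDensity h
  have hμuniv : μ univ = ENNReal.ofReal (π ^ 2 * √π / 2) := by
    rw [withDensity_apply _ MeasurableSet.univ, Measure.restrict_univ, hint]
  have : IsFiniteMeasure μ := ⟨by rw [hμuniv]; exact ENNReal.ofReal_lt_top⟩
  have hμ0 : μ ≠ 0 := by
    intro h0
    rw [h0] at hμuniv
    simp only [Measure.coe_zero, Pi.zero_apply] at hμuniv
    have : (0 : ℝ) < π ^ 2 * √π / 2 := by positivity
    rw [eq_comm, ENNReal.ofReal_eq_zero] at hμuniv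
    linarith
  -- the bad set
  let N' : Set E2 := N ∪ {0} ∪ ⋃ j ∈ J, {t : E2 | brE t (v j) = 0}
  have hN' : volume N' = 0 := by
    apply measure_union_null
    · apply measure_union_null hN
      exact measure_singleton 0
    · exact (measure_biUnion_null_iff (μ := (volume : Measure E2)) J.countable_toSet
        (s := fun j => {t : E2 | brE t (v j) = 0})).2 (fun j hj => null_br _ (hv j hj))
  have hμN' : μ N' = 0 := withDensity_absolutelyContinuous _ _ hN'
  let f : E2 → ℝ≥0∞ := fun t => ENNReal.ofReal (∑ j ∈ J, c j * (‖t‖ * ‖v j‖ / ‖brE t (v j)‖))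
  have hf : Measurable f := by
    apply ENNReal.measurable_ofReal.comp
    apply Finset.measurable_fun_sum
    intro j _
    apply Measurable.const_mul
    apply Measurable.div
    · fun_prop
    · exact meas_br _
  obtain ⟨t, htN, ht⟩ := exists_notMem_null_le_laverage hμ0 hf.aemeasurable hμN'
  have hlint : ∫⁻ t, f t ∂μ = ENNReal.ofReal ((∑ j ∈ J, c j) * (π ^ 2 * √π)) := by
    rw [lintegral_withDensity_eq_lintegral_mul _ hmeas hf]
    have h1 : ∫⁻ t, (h * f) t = ∫⁻ t, ∑ j ∈ J, ENNReal.ofReal (c j) *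
        ENNReal.ofReal (rexp (-‖t‖ ^ 2) * (‖v j‖ / ‖brE t (v j)‖)) := by
      apply lintegral_congr_ae
      have h0 : ∀ᵐ t : E2, t ≠ 0 := by
        simp [ae_iff, measure_singleton]
      filter_upwards [h0] with t ht0
      have hne : ‖t‖ ≠ 0 := norm_ne_zero_iff.2 ht0
      simp only [Pi.mul_apply, h, f]
      rw [← ENNReal.ofReal_mul (by positivity), Finset.mul_sum, ENNReal.ofReal_sum_of_nonneg]
      · apply Finset.sum_congr rfl
        intro j hj
        rw [← ENNReal.ofReal_mul (hc j hj)]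
        congr 1
        field_simp
      · intro j hj
        have := hc j hj
        positivity
    rw [h1, lintegral_finsetSum]
    · have h2 : ∀ j ∈ J, ∫⁻ t : E2, ENNReal.ofReal (c j) *
          ENNReal.ofReal (rexp (-‖t‖ ^ 2) * (‖v j‖ / ‖brE t (v j)‖))
          = ENNReal.ofReal (c j * (π ^ 2 * √π)) := by
        intro j hj
        rw [lintegral_const_mul, lint_A' _ (hv j hj), ← ENNReal.ofReal_mul (hc j hj)]
        apply ENNReal.measurable_ofReal.comp
        apply Measurable.mul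
        · fun_prop
        · apply Measurable.div
          · fun_prop
          · exact meas_br _
      rw [Finset.sum_congr rfl h2, ← ENNReal.ofReal_sum_of_nonneg, Finset.sum_mul]
      intro j hj
      have := hc j hj
      positivity
    · intro j _
      apply Measurable.const_mul
      apply ENNReal.measurable_ofReal.comp
      apply Measurable.mul
      · fun_prop
      · apply Measurable.div
        · fun_prop
        · exact meas_br _
  rw [laverage_eq, hlint, hμuniv, ← ENNReal.ofReal_div_of_pos (by positivity)] at ht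
  have hcs : 0 ≤ ∑ j ∈ J, c j := Finset.sum_nonneg hc
  simp only [f] at ht
  rw [ENNReal.ofReal_le_ofReal_iff (by positivity)] at ht
  refine ⟨t, ?_, ?_, ?_, ?_⟩
  · intro h1; exact htN (Or.inl (Or.inl h1))
  · intro h1; exact htN (Or.inl (Or.inr h1))
  · intro j hj h1
    exact htN (Or.inr (Set.mem_biUnion hj h1))
  · refine ht.trans (le_of_eq ?_)
    have : (0 : ℝ) < π ^ 2 * √π := by positivity
    field_simp

/-- Hyperbolic distance (curvature `-1`) in the Klein model, for points of the open unit ball. -/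
noncomputable def kleinDist (x y : Fin 3 → ℝ) : ℝ :=
  Real.arcosh ((1 - ∑ k, x k * y k) / √((1 - ∑ k, x k ^ 2) * (1 - ∑ k, y k ^ 2)))

noncomputable def mm (x : Fin 3 → ℝ) : ℝ := √(1 - ∑ k, x k ^ 2)

theorem mm_pos {x : Fin 3 → ℝ} (hx : ∑ k, x k ^ 2 < 1) : 0 < mm x := Real.sqrt_pos.2 (by linarith)

theorem mm_sq {x : Fin 3 → ℝ} (hx : ∑ k, x k ^ 2 < 1) : mm x ^ 2 = 1 - ∑ k, x k ^ 2 :=
  Real.sq_sqrt (by linarith)

theorem kleinDist_eq {x y : Fin 3 → ℝ} (hx : ∑ k, x k ^ 2 < 1) :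
    kleinDist x y = Real.arcosh ((1 - ∑ k, x k * y k) / (mm x * mm y)) := by
  unfold kleinDist mm
  rw [Real.sqrt_mul (by linarith)]

theorem kleinDist_comm (x y : Fin 3 → ℝ) : kleinDist x y = kleinDist y x := by
  unfold kleinDist
  rw [mul_comm (1 - ∑ k, x k ^ 2)]
  simp only [mul_comm (x _) (y _)]

theorem one_le_u {x y : Fin 3 → ℝ} (hx : ∑ k, x k ^ 2 < 1) (hy : ∑ k, y k ^ 2 < 1) :
    1 ≤ (1 - ∑ k, x k * y k) / (mm x * mm y) := by
  have h1 := mm_pos hx
  have h2 := mm_pos hy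
  have h3 := mm_sq hx
  have h4 := mm_sq hy
  rw [le_div_iff₀ (by positivity), one_mul]
  have h5 : ∑ k, x k * y k ≤ (∑ k, x k ^ 2 + ∑ k, y k ^ 2) / 2 := by
    simp only [Fin.sum_univ_three]
    nlinarith [sq_nonneg (x 0 - y 0), sq_nonneg (x 1 - y 1), sq_nonneg (x 2 - y 2)]
  nlinarith [sq_nonneg (mm x - mm y)]

theorem exp_kleinDist {x y : Fin 3 → ℝ} (hx : ∑ k, x k ^ 2 < 1) (hy : ∑ k, y k ^ 2 < 1) :
    1 ≤ Real.exp (kleinDist x y) ∧
    (Real.exp (kleinDist x y) ^ 2 + 1) * (mm x * mm y) = 2 * (1 - ∑ k, x k * y k) * Real.exp (kleinDist x y) := by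
  have h1 := mm_pos hx
  have h2 := mm_pos hy
  have hu := one_le_u hx hy
  have hd : Real.cosh (kleinDist x y) = (1 - ∑ k, x k * y k) / (mm x * mm y) := by
    rw [kleinDist_eq hx, Real.cosh_arcosh hu]
  have hd0 : 0 ≤ kleinDist x y := by
    rw [kleinDist_eq hx]; exact Real.arcosh_nonneg hu
  refine ⟨Real.one_le_exp hd0, ?_⟩
  rw [Real.cosh_eq, eq_div_iff (by positivity)] at hd
  have hE := Real.exp_pos (kleinDist x y)
  have hneg : Real.exp (-kleinDist x y) = (Real.exp (kleinDist x y))⁻¹ := Real.exp_neg _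
  rw [hneg] at hd
  field_simp at hd
  linarith

/-- Busemann-type Lipschitz inequality. -/
theorem lip_real {x y : Fin 3 → ℝ} (hx : ∑ k, x k ^ 2 < 1) (hy : ∑ k, y k ^ 2 < 1) (P : Fin 3 → ℝ)
    (P0 : ℝ) (hP0 : 0 ≤ P0) (hP : ∑ k, P k ^ 2 ≤ P0 ^ 2) :
    (P0 - ∑ k, x k * P k) / mm x ≤ Real.exp (kleinDist x y) * ((P0 - ∑ k, y k * P k) / mm y) := by
  obtain ⟨hE1, hE2⟩ := exp_kleinDist hx hy
  set E := Real.exp (kleinDist x y)
  have h1 := mm_pos hx
  have h2 := mm_pos hy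
  have h3 := mm_sq hx
  have h4 := mm_sq hy
  set a := mm x
  set b := mm y
  -- T ≥ 0
  have hT : b ≤ E * a := by
    by_contra hcon
    push Not at hcon
    have h5 : a < E * b := by nlinarith
    have h6 : 0 < (b - E * a) * (E * b - a) := mul_pos (by linarith) (by linarith)
    have h7 : 0 < E * (a ^ 2 + b ^ 2 - 2 * (1 - ∑ k, x k * y k)) := by nlinarith
    have h8 : 0 < a ^ 2 + b ^ 2 - 2 * (1 - ∑ k, x k * y k) := by
      by_contra h9
      push Not at h9
      nlinarith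
    rw [h3, h4] at h8
    simp only [Fin.sum_univ_three] at h8
    nlinarith [sq_nonneg (x 0 - y 0), sq_nonneg (x 1 - y 1), sq_nonneg (x 2 - y 2)]
  -- vector V
  have hV : ∑ k, (E * a * y k - b * x k) ^ 2 = (E * a - b) ^ 2 := by
    simp only [Fin.sum_univ_three] at hE2 h3 h4 ⊢
    linear_combination (E ^ 2 * a ^ 2) * h4 + (b ^ 2) * h3 - (a * b) * hE2
  have hCS : (∑ k, (E * a * y k - b * x k) * P k) ≤ (E * a - b) * P0 := by
    have hcs := Finset.sum_mul_sq_le_sq_mul_sq Finset.univ (fun k => E * a * y k - b * x k) P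
    rw [hV] at hcs
    have h10 : (∑ k, (E * a * y k - b * x k) * P k) ^ 2 ≤ ((E * a - b) * P0) ^ 2 := by
      refine hcs.trans ?_
      rw [mul_pow]
      exact mul_le_mul_of_nonneg_left hP (sq_nonneg _)
    exact abs_le_of_sq_le_sq' h10 (mul_nonneg (by linarith) hP0) |>.2
  rw [mul_div_assoc', div_le_div_iff₀ h1 h2]
  have h11 : ∑ k, (E * a * y k - b * x k) * P k = E * a * ∑ k, y k * P k - b * ∑ k, x k * P k := by
    simp only [Fin.sum_univ_three]; ring
  rw [h11] at hCS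
  nlinarith

/-- contraction towards the endpoint -/
theorem contr_real {x y p : Fin 3 → ℝ} (hx : ∑ k, x k ^ 2 < 1) (hy : ∑ k, y k ^ 2 < 1)
    (hp : ∑ k, p k ^ 2 = 1) (t : ℝ) (ht : 0 < t) (hpt : ∀ k, p k = x k + t * (y k - x k)) :
    (1 - ∑ k, y k * p k) / mm y = (Real.exp (kleinDist x y))⁻¹ * ((1 - ∑ k, x k * p k) / mm x) := by
  have h1 := mm_pos hx
  have h2 := mm_pos hy
  have h3 := mm_sq hx
  have h4 := mm_sq hy
  have ht1 : 1 < t := by
    by_contra hcon
    push Not at hcon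
    have : ∑ k, p k ^ 2 < 1 := by
      simp only [Fin.sum_univ_three, hpt] at hx hy ⊢
      nlinarith [mul_nonneg ht.le (sub_nonneg.2 hcon), sq_nonneg (y 0 - x 0), sq_nonneg (y 1 - x 1),
        sq_nonneg (y 2 - x 2), mul_nonneg (mul_nonneg ht.le (sub_nonneg.2 hcon)) (sq_nonneg (y 0 - x 0)),
        mul_nonneg (mul_nonneg ht.le (sub_nonneg.2 hcon)) (sq_nonneg (y 1 - x 1)),
        mul_nonneg (mul_nonneg ht.le (sub_nonneg.2 hcon)) (sq_nonneg (y 2 - x 2))]
    linarith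
  have hy' : ∀ k, y k = x k + (p k - x k) / t := by
    intro k
    rw [hpt k]
    field_simp
    ring
  have hxp : ∑ k, x k * p k < 1 := by
    simp only [Fin.sum_univ_three] at hx hp ⊢
    nlinarith [sq_nonneg (x 0 - p 0), sq_nonneg (x 1 - p 1), sq_nonneg (x 2 - p 2)]
  -- a = (1 - 1/t) m_x / m_y
  have e1 : t * (1 - ∑ k, y k * p k) = (t - 1) * (1 - ∑ k, x k * p k) := by
    simp only [Fin.sum_univ_three] at hp ⊢
    have h0 := hpt 0
    have h1 := hpt 1
    have h2 := hpt 2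
    linear_combination (p 0) * h0 + (p 1) * h1 + (p 2) * h2 - hp
  have e2 : t ^ 2 * mm y ^ 2 = (t - 1) ^ 2 * mm x ^ 2 + 2 * (t - 1) * (1 - ∑ k, x k * p k) := by
    rw [h3, h4]
    simp only [Fin.sum_univ_three] at hp ⊢
    have g0 : t * y 0 = (t - 1) * x 0 + p 0 := by rw [hpt 0]; ring
    have g1 : t * y 1 = (t - 1) * x 1 + p 1 := by rw [hpt 1]; ring
    have g2 : t * y 2 = (t - 1) * x 2 + p 2 := by rw [hpt 2]; ring
    have k0 : t ^ 2 * y 0 ^ 2 = ((t - 1) * x 0 + p 0) ^ 2 := by rw [← g0]; ring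
    have k1 : t ^ 2 * y 1 ^ 2 = ((t - 1) * x 1 + p 1) ^ 2 := by rw [← g1]; ring
    have k2 : t ^ 2 * y 2 ^ 2 = ((t - 1) * x 2 + p 2) ^ 2 := by rw [← g2]; ring
    linear_combination -k0 - k1 - k2 - hp
  have e3 : t * (1 - ∑ k, x k * y k) = (t - 1) * mm x ^ 2 + (1 - ∑ k, x k * p k) := by
    rw [h3]
    simp only [Fin.sum_univ_three]
    have h0 := hpt 0
    have h1 := hpt 1
    have h2 := hpt 2
    linear_combination (x 0) * h0 + (x 1) * h1 + (x 2) * h2
  set a := mm x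
  set b := mm y
  set q := 1 - ∑ k, x k * p k
  have hq : 0 < q := by simp only [q]; linarith
  have hr : 1 ≤ t * b / ((t - 1) * a) := by
    rw [le_div_iff₀ (mul_pos (by linarith) h1), one_mul]
    have : ((t - 1) * a) ^ 2 ≤ (t * b) ^ 2 := by nlinarith [mul_pos (sub_pos.2 ht1) hq]
    exact (abs_le_of_sq_le_sq' this (by positivity)).2
  have hd : kleinDist x y = Real.log (t * b / ((t - 1) * a)) := by
    rw [kleinDist_eq hx]
    have hu : (1 - ∑ k, x k * y k) / (a * b) = Real.cosh (Real.log (t * b / ((t - 1) * a))) := by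
      rw [Real.cosh_log (by positivity)]
      have ht1' : t - 1 ≠ 0 := by linarith
      field_simp
      nlinarith
    change Real.arcosh ((1 - ∑ k, x k * y k) / (a * b)) = _
    rw [hu, Real.arcosh_cosh (Real.log_nonneg hr)]
  have hE : Real.exp (kleinDist x y) = t * b / ((t - 1) * a) := by
    rw [hd, Real.exp_log (lt_of_lt_of_le one_pos hr)]
  rw [hE]
  have ht1' : t - 1 ≠ 0 := by linarith
  field_simp
  linarith

/-! ### Norms attached to points of the ball -/

/-- quadratic form -/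
noncomputable def BB (x : Fin 3 → ℝ) (a : E2) : ℝ :=
  (‖a.ofLp.1‖ ^ 2 + ‖a.ofLp.2‖ ^ 2) - (x 0 * (2 * (a.ofLp.1 * (starRingEnd ℂ) a.ofLp.2).re)
    + x 1 * (2 * (a.ofLp.1 * (starRingEnd ℂ) a.ofLp.2).im) + x 2 * (‖a.ofLp.1‖ ^ 2 - ‖a.ofLp.2‖ ^ 2))

noncomputable def al (x : Fin 3 → ℝ) : ℝ := √((1 - x 2) / mm x)

noncomputable def cc (x : Fin 3 → ℝ) : ℂ := ((x 0 : ℂ) + (x 1 : ℂ) * Complex.I) / (1 - (x 2 : ℂ))

/-- the linear map whose norm is the norm attached to `x` -/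
noncomputable def GG (x : Fin 3 → ℝ) : E2 →ₗ[ℂ] E2 where
  toFun a := WithLp.toLp 2 ((al x : ℂ) * (a.ofLp.1 - cc x * a.ofLp.2), ((al x)⁻¹ : ℂ) * a.ofLp.2)
  map_add' a b := by
    apply WithLp.ofLp_injective
    apply Prod.ext <;> simp <;> ring
  map_smul' c a := by
    apply WithLp.ofLp_injective
    apply Prod.ext <;> simp <;> ring

theorem x2_lt {x : Fin 3 → ℝ} (hx : ∑ k, x k ^ 2 < 1) : x 2 < 1 := by
  simp only [Fin.sum_univ_three] at hx
  nlinarith [sq_nonneg (x 0), sq_nonneg (x 1), sq_nonneg (x 2 - 1)]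

theorem al_pos {x : Fin 3 → ℝ} (hx : ∑ k, x k ^ 2 < 1) : 0 < al x :=
  Real.sqrt_pos.2 (div_pos (by linarith [x2_lt hx]) (mm_pos hx))

theorem al_sq {x : Fin 3 → ℝ} (hx : ∑ k, x k ^ 2 < 1) : al x ^ 2 = (1 - x 2) / mm x :=
  Real.sq_sqrt (div_pos (by linarith [x2_lt hx]) (mm_pos hx)).le

theorem GG_norm {x : Fin 3 → ℝ} (hx : ∑ k, x k ^ 2 < 1) (a : E2) :
    ‖GG x a‖ ^ 2 = BB x a / mm x := by
  have h1 := mm_pos hx
  have h2 := mm_sq hx
  have h3 := x2_lt hx
  have h4 := al_pos hx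
  have h5 := al_sq hx
  rw [WithLp.prod_norm_sq_eq_of_L2]
  have e1 : ((GG x a).fst : ℂ) = (al x : ℂ) * (a.ofLp.1 - cc x * a.ofLp.2) := rfl
  have e2 : ((GG x a).snd : ℂ) = ((al x)⁻¹ : ℂ) * a.ofLp.2 := rfl
  rw [e1, e2, norm_mul, norm_mul, mul_pow, mul_pow, norm_inv, Complex.norm_real, Real.norm_eq_abs, sq_abs,
    inv_pow, sq_abs, h5]
  have e3 : cc x = (((x 0) / (1 - x 2) : ℝ) : ℂ) + (((x 1) / (1 - x 2) : ℝ) : ℂ) * Complex.I := by
    unfold cc; push_cast; ring
  rw [e3]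
  unfold BB
  simp only [Complex.sq_norm, Complex.normSq_apply, Complex.sub_re, Complex.mul_re, Complex.sub_im,
    Complex.mul_im, Complex.add_re, Complex.add_im, Complex.conj_re, Complex.conj_im, Complex.ofReal_re,
    Complex.ofReal_im, Complex.I_re, Complex.I_im]
  have h6 : (1 - x 2) ≠ 0 := by linarith
  simp only [Fin.sum_univ_three] at h2
  field_simp
  ring_nf
  rw [h2]
  ring

theorem GG_br {x : Fin 3 → ℝ} (hx : ∑ k, x k ^ 2 < 1) (a b : E2) : brE (GG x a) (GG x b) = brE a b := by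
  have h4 : (al x : ℂ) ≠ 0 := by exact_mod_cast (al_pos hx).ne'
  unfold brE
  have e1 : ∀ a : E2, (GG x a).ofLp.1 = (al x : ℂ) * (a.ofLp.1 - cc x * a.ofLp.2) := fun _ => rfl
  have e2 : ∀ a : E2, (GG x a).ofLp.2 = ((al x)⁻¹ : ℂ) * a.ofLp.2 := fun _ => rfl
  rw [e1, e1, e2, e2]
  field_simp
  ring

theorem br_le (a b : E2) : ‖brE a b‖ ≤ ‖a‖ * ‖b‖ := by
  have key : ∀ a b c d : ℂ, ‖a * d - b * c‖ ^ 2 + ‖a * (starRingEnd ℂ) c + b * (starRingEnd ℂ) d‖ ^ 2
      = (‖a‖ ^ 2 + ‖b‖ ^ 2) * (‖c‖ ^ 2 + ‖d‖ ^ 2) := by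
    intro a b c d
    simp only [Complex.sq_norm, Complex.normSq_apply, Complex.sub_re, Complex.mul_re,
      Complex.sub_im, Complex.mul_im, Complex.add_re, Complex.add_im, Complex.conj_re, Complex.conj_im]
    ring
  have h := key a.ofLp.1 a.ofLp.2 b.ofLp.1 b.ofLp.2
  have ha : ‖a‖ ^ 2 = ‖a.ofLp.1‖ ^ 2 + ‖a.ofLp.2‖ ^ 2 := WithLp.prod_norm_sq_eq_of_L2 a
  have hb : ‖b‖ ^ 2 = ‖b.ofLp.1‖ ^ 2 + ‖b.ofLp.2‖ ^ 2 := WithLp.prod_norm_sq_eq_of_L2 b
  rw [← ha, ← hb] at h
  have h2 : ‖brE a b‖ ^ 2 ≤ (‖a‖ * ‖b‖) ^ 2 := by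
    rw [mul_pow, ← h]
    unfold brE
    have := sq_nonneg ‖a.ofLp.1 * (starRingEnd ℂ) b.ofLp.1 + a.ofLp.2 * (starRingEnd ℂ) b.ofLp.2‖
    linarith
  exact (abs_le_of_sq_le_sq' h2 (by positivity)).2

theorem br_le_GG {x : Fin 3 → ℝ} (hx : ∑ k, x k ^ 2 < 1) (a b : E2) :
    ‖brE a b‖ ≤ ‖GG x a‖ * ‖GG x b‖ := by
  rw [← GG_br hx]; exact br_le _ _

theorem GG_lip {x y : Fin 3 → ℝ} (hx : ∑ k, x k ^ 2 < 1) (hy : ∑ k, y k ^ 2 < 1) (a : E2) :
    ‖GG x a‖ ≤ Real.exp (kleinDist x y / 2) * ‖GG y a‖ := by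
  have h := lip_real hx hy
    ![2 * (a.ofLp.1 * (starRingEnd ℂ) a.ofLp.2).re, 2 * (a.ofLp.1 * (starRingEnd ℂ) a.ofLp.2).im,
      ‖a.ofLp.1‖ ^ 2 - ‖a.ofLp.2‖ ^ 2] (‖a.ofLp.1‖ ^ 2 + ‖a.ofLp.2‖ ^ 2) (by positivity) (by
      apply le_of_eq
      simp only [Fin.sum_univ_three, Matrix.cons_val_zero, Matrix.cons_val_one, Matrix.cons_val_two,
        Matrix.head_cons, Matrix.tail_cons]
      simp only [Complex.sq_norm, Complex.normSq_apply, Complex.mul_re, Complex.mul_im, Complex.conj_re,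
        Complex.conj_im]
      ring)
  have e : ∀ z : Fin 3 → ℝ, (‖a.ofLp.1‖ ^ 2 + ‖a.ofLp.2‖ ^ 2) - ∑ k, z k *
    (![2 * (a.ofLp.1 * (starRingEnd ℂ) a.ofLp.2).re, 2 * (a.ofLp.1 * (starRingEnd ℂ) a.ofLp.2).im,
      ‖a.ofLp.1‖ ^ 2 - ‖a.ofLp.2‖ ^ 2] : Fin 3 → ℝ) k = BB z a := by
    intro z
    simp only [Fin.sum_univ_three, Matrix.cons_val_zero, Matrix.cons_val_one, Matrix.cons_val_two,
        Matrix.head_cons, Matrix.tail_cons, BB]
  rw [e, e, ← GG_norm hx, ← GG_norm hy] at h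
  have h2 : ‖GG x a‖ ^ 2 ≤ (Real.exp (kleinDist x y / 2) * ‖GG y a‖) ^ 2 := by
    rw [mul_pow, ← Real.exp_nat_mul]
    have : ((2 : ℕ) : ℝ) * (kleinDist x y / 2) = kleinDist x y := by push_cast; ring
    rw [this]
    exact h
  exact (abs_le_of_sq_le_sq' h2 (by positivity)).2

/-- the spinor of a point of the sphere, normalised such that the linear factor is `brE (z,1) w` -/
noncomputable def spin (p : Fin 3 → ℝ) : E2 :=
  if p 2 = 1 then WithLp.toLp 2 (-1, 0)
  else WithLp.toLp 2 (((p 0 : ℂ) + (p 1 : ℂ) * Complex.I) / (1 - (p 2 : ℂ)), 1)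

theorem spin_BB {p : Fin 3 → ℝ} (hp : ∑ k, p k ^ 2 = 1) :
    ∃ κ : ℝ, 0 < κ ∧ ∀ y : Fin 3 → ℝ, BB y (spin p) = κ * (1 - ∑ k, y k * p k) := by
  by_cases h : p 2 = 1
  · refine ⟨1, one_pos, fun y => ?_⟩
    simp only [Fin.sum_univ_three] at hp ⊢
    rw [h] at hp
    have h0 : p 0 = 0 := by nlinarith [sq_nonneg (p 0), sq_nonneg (p 1)]
    have h1 : p 1 = 0 := by nlinarith [sq_nonneg (p 0), sq_nonneg (p 1)]
    simp [spin, h, BB, h0, h1]
  · have h2 : p 2 < 1 := by
      have : p 2 ≤ 1 := by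
        simp only [Fin.sum_univ_three] at hp
        nlinarith [sq_nonneg (p 0), sq_nonneg (p 1)]
      exact lt_of_le_of_ne this h
    have h3 : (1 - p 2) ≠ 0 := by linarith
    refine ⟨2 / (1 - p 2), div_pos two_pos (by linarith), fun y => ?_⟩
    have e3 : ((p 0 : ℂ) + (p 1 : ℂ) * Complex.I) / (1 - (p 2 : ℂ))
        = (((p 0) / (1 - p 2) : ℝ) : ℂ) + (((p 1) / (1 - p 2) : ℝ) : ℂ) * Complex.I := by
      push_cast; ring
    unfold spin BB
    rw [if_neg h, e3]
    simp only [Complex.sq_norm, Complex.normSq_apply, Complex.mul_re,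
      Complex.mul_im, Complex.add_re, Complex.add_im, Complex.ofReal_re,
      Complex.ofReal_im, Complex.I_re, Complex.I_im, map_one, Complex.one_re, Complex.one_im]
    simp only [Fin.sum_univ_three] at hp ⊢
    field_simp
    have h5 : p 0 ^ 2 + p 1 ^ 2 = 1 - p 2 ^ 2 := by linarith
    ring_nf
    have h6 : p 0 ^ 2 = 1 - p 2 ^ 2 - p 1 ^ 2 := by linarith
    rw [h6]
    ring

theorem spin_ne {p : Fin 3 → ℝ} : spin p ≠ 0 := by
  intro h
  have h2 := congrArg WithLp.ofLp h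
  unfold spin at h2
  split_ifs at h2
  · have := congrArg Prod.fst h2
    simp at this
  · have := congrArg Prod.snd h2
    simp at this

theorem spin_br (p : Fin 3 → ℝ) (t : E2) (ht : t.ofLp.2 ≠ 0) :
    brE t (spin p) = t.ofLp.2 * (if p 2 = 1 then (1 : Polynomial ℂ) else
            Polynomial.X - Polynomial.C
              (((p 0 : ℂ) + (p 1 : ℂ) * Complex.I) / (1 - (p 2 : ℂ)))).eval (t.ofLp.1 / t.ofLp.2) := by
  unfold spin brE
  split_ifs
  · simp
  · simp only [Polynomial.eval_sub, Polynomial.eval_X, Polynomial.eval_C]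
    field_simp

theorem spin_contr {x y p : Fin 3 → ℝ} (hx : ∑ k, x k ^ 2 < 1) (hy : ∑ k, y k ^ 2 < 1)
    (hp : ∑ k, p k ^ 2 = 1) (t : ℝ) (ht : 0 < t) (hpt : ∀ k, p k = x k + t * (y k - x k)) :
    ‖GG y (spin p)‖ = (Real.exp (kleinDist x y / 2))⁻¹ * ‖GG x (spin p)‖ := by
  obtain ⟨κ, hκ, h⟩ := spin_BB hp
  have h1 := contr_real hx hy hp t ht hpt
  have h2 : ‖GG y (spin p)‖ ^ 2 = ((Real.exp (kleinDist x y / 2))⁻¹ * ‖GG x (spin p)‖) ^ 2 := by
    rw [mul_pow, inv_pow, ← Real.exp_nat_mul]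
    have : ((2 : ℕ) : ℝ) * (kleinDist x y / 2) = kleinDist x y := by push_cast; ring
    rw [this, GG_norm hy, GG_norm hx, h, h, mul_div_assoc, h1]
    ring
  exact (pow_left_inj₀ (norm_nonneg _) (by positivity) two_ne_zero).1 h2

theorem GG_ne {x : Fin 3 → ℝ} (hx : ∑ k, x k ^ 2 < 1) {a : E2} (ha : a ≠ 0) : GG x a ≠ 0 := by
  intro h
  apply ha
  have h4 : (al x : ℂ) ≠ 0 := by exact_mod_cast (al_pos hx).ne'
  have e2 : (GG x a).ofLp.2 = ((al x)⁻¹ : ℂ) * a.ofLp.2 := rfl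
  have e1 : (GG x a).ofLp.1 = (al x : ℂ) * (a.ofLp.1 - cc x * a.ofLp.2) := rfl
  rw [h] at e1 e2
  simp only [WithLp.ofLp_zero, Prod.fst_zero, Prod.snd_zero] at e1 e2
  have h2 : a.ofLp.2 = 0 := by
    rcases mul_eq_zero.1 e2.symm with h5 | h5
    · exact absurd h5 (inv_ne_zero h4)
    · exact h5
  have h1 : a.ofLp.1 = 0 := by
    rcases mul_eq_zero.1 e1.symm with h5 | h5
    · exact absurd h5 h4
    · rw [h2, mul_zero, sub_zero] at h5
      exact h5
  apply WithLp.ofLp_injective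
  exact Prod.ext h1 h2

/-! ### The dominance argument -/

/-- Plücker-type estimate. -/
theorem pluecker {x : Fin 3 → ℝ} (t v w : E2) :
    ‖brE t w‖ * ‖GG x v‖ ≤ ‖brE v w‖ * ‖GG x t‖ + ‖brE t v‖ * ‖GG x w‖ := by
  have h : (brE t w) • v = (brE v w) • t + (brE t v) • w := by
    apply WithLp.ofLp_injective
    apply Prod.ext
    · simp [brE]; ring
    · simp [brE]; ring
  have h2 : GG x ((brE t w) • v) = (brE v w) • GG x t + (brE t v) • GG x w := by
    rw [h, map_add, map_smul, map_smul]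
  have h3 := congrArg norm h2
  rw [map_smul, norm_smul] at h3
  rw [h3]
  refine (norm_add_le _ _).trans ?_
  rw [norm_smul, norm_smul]

section Dominance

variable {n : ℕ} (x : Fin n → Fin 3 → ℝ) (w : Fin n → Fin n → E2)

/-- exponential of half the distance -/
noncomputable def ee (i j : Fin n) : ℝ := Real.exp (kleinDist (x i) (x j) / 2)

theorem ee_pos (i j : Fin n) : 0 < ee x i j := Real.exp_pos _

theorem ee_comm (i j : Fin n) : ee x i j = ee x j i := by
  unfold ee; rw [kleinDist_comm]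

/-- norm at the `i`-th point -/
noncomputable def nn (i : Fin n) (a : E2) : ℝ := ‖GG (x i) a‖

theorem nn_nonneg (i : Fin n) (a : E2) : 0 ≤ nn x i a := norm_nonneg _

/-- The linear factor bound: for `i, j, k` distinct. -/
theorem factor_bound (hx : ∀ i, ∑ k, x i k ^ 2 < 1)
    (hw : ∀ i j, i ≠ j → nn x j (w i j) = (ee x i j)⁻¹ * nn x i (w i j))
    (hpos : ∀ i j, i ≠ j → 0 < nn x i (w i j))
    (i j k : Fin n) (hij : j ≠ i) (hjk : j ≠ k) (t : E2) (ht : 0 < nn x k t) :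
    ‖brE t (w i j)‖ ≤ nn x i (w i j) * (ee x i j)⁻¹ * ee x k j * nn x k t *
      (‖brE t (w k j)‖ / (nn x k t * nn x k (w k j)) + ((ee x k j)⁻¹) ^ 2) := by
  have h1 := pluecker (x := x k) t (w k j) (w i j)
  change ‖brE t (w i j)‖ * nn x k (w k j) ≤ ‖brE (w k j) (w i j)‖ * nn x k t
    + ‖brE t (w k j)‖ * nn x k (w i j) at h1
  have h2 : ‖brE (w k j) (w i j)‖ ≤ nn x j (w k j) * nn x j (w i j) := br_le_GG (hx j) _ _
  rw [hw k j hjk.symm, hw i j hij.symm] at h2
  have h3 : nn x k (w i j) ≤ ee x k j * nn x j (w i j) := GG_lip (hx k) (hx j) _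
  rw [hw i j hij.symm] at h3
  have p1 := hpos k j hjk.symm
  have p2 := hpos i j hij.symm
  have e1 := ee_pos x k j
  have e2 := ee_pos x i j
  have h4 : ‖brE t (w i j)‖ * nn x k (w k j) ≤
      ((ee x k j)⁻¹ * nn x k (w k j) * ((ee x i j)⁻¹ * nn x i (w i j))) * nn x k t
      + ‖brE t (w k j)‖ * (ee x k j * ((ee x i j)⁻¹ * nn x i (w i j))) := by
    refine h1.trans (add_le_add ?_ ?_)
    · exact mul_le_mul_of_nonneg_right h2 ht.le
    · exact mul_le_mul_of_nonneg_left h3 (norm_nonneg _)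
  rw [← le_div_iff₀ p1] at h4
  refine h4.trans (le_of_eq ?_)
  field_simp
  ring

theorem aux_mul (N S A B C D Q e r : ℝ) (c : ℕ) (hN : 0 ≤ N) (hS : 0 ≤ S) (hA : 0 ≤ A) (hB : 0 ≤ B)
    (hC : 0 ≤ C) (hDQ : D ≤ Q) (he : 0 < e) (hr : 0 < r) :
    N * S * (N ^ c * A * B * C * D) ≤ N ^ c * N * (S * A) * (e * B) * (r * C) * (e⁻¹ / r * Q) := by
  have h1 : N ^ c * N * (S * A) * (e * B) * (r * C) * (e⁻¹ / r * Q) = (N * S * (N ^ c * A * B * C)) * Q := by
    field_simp
  have h2 : N * S * (N ^ c * A * B * C * D) = (N * S * (N ^ c * A * B * C)) * D := by ring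
  rw [h1, h2]
  exact mul_le_mul_of_nonneg_left hDQ (by positivity)

/-- The final contradiction. -/
theorem dominance (hx : ∀ i, ∑ k, x i k ^ 2 < 1)
    (hw : ∀ i j, i ≠ j → nn x j (w i j) = (ee x i j)⁻¹ * nn x i (w i j))
    (hpos : ∀ i j, i ≠ j → 0 < nn x i (w i j))
    (hsep : ∀ k, ∑ i ∈ Finset.univ.erase k, (ee x k i)⁻¹ ≤ 3 / 8)
    (t : Fin n → E2) (ht : ∀ k, 0 < nn x k (t k))
    (hne : ∀ k j, j ≠ k → brE (t k) (w k j) ≠ 0)
    (hsum : ∀ k, ∑ j ∈ Finset.univ.erase k, (ee x k j)⁻¹ *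
      (nn x k (t k) * nn x k (w k j) / ‖brE (t k) (w k j)‖) ≤
      2 * ∑ j ∈ Finset.univ.erase k, (ee x k j)⁻¹)
    (g : Fin n → ℂ)
    (hg : ∀ k, ∑ i, g i * ∏ j ∈ Finset.univ.erase i, brE (t k) (w i j) = 0) : g = 0 := by
  classical
  -- weights
  let V : Fin n → ℝ := fun i => ∏ j ∈ Finset.univ.erase i, (nn x i (w i j) * (ee x i j)⁻¹)
  have hV : ∀ i, 0 < V i := by
    intro i
    apply Finset.prod_pos
    intro j hj
    have hji := Finset.ne_of_mem_erase hj
    exact mul_pos (hpos i j hji.symm) (inv_pos.2 (ee_pos x i j))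
  by_contra hg0
  obtain ⟨i0, hi0⟩ := Function.ne_iff.1 hg0
  obtain ⟨k, -, hk⟩ := Finset.exists_max_image Finset.univ (fun i => ‖g i‖ * V i) ⟨i0, Finset.mem_univ _⟩
  have hkpos : 0 < ‖g k‖ * V k := by
    have h1 := hk i0 (Finset.mem_univ _)
    have h2 : 0 < ‖g i0‖ * V i0 := mul_pos (norm_pos_iff.2 hi0) (hV i0)
    linarith
  set N := nn x k (t k) with hN
  have hNpos : 0 < N := ht k
  -- ρ
  let ρ : Fin n → ℝ := fun j => ‖brE (t k) (w k j)‖ / (N * nn x k (w k j))
  have hρ : ∀ j, j ≠ k → 0 < ρ j := by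
    intro j hj
    exact div_pos (norm_pos_iff.2 (hne k j hj)) (mul_pos hNpos (hpos k j hj.symm))
  let Ek : ℝ := ∏ j ∈ Finset.univ.erase k, ee x k j
  have hEk : 0 < Ek := Finset.prod_pos fun j _ => ee_pos x k j
  let R : ℝ := ∏ j ∈ Finset.univ.erase k, ρ j
  have hR : 0 < R := Finset.prod_pos fun j hj => hρ j (Finset.ne_of_mem_erase hj)
  -- diagonal term
  have hdiag : ‖∏ j ∈ Finset.univ.erase k, brE (t k) (w k j)‖ = N ^ (n - 1) * V k * Ek * R := by
    rw [norm_prod]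
    have h1 : ∀ j ∈ Finset.univ.erase k, ‖brE (t k) (w k j)‖
        = N * (nn x k (w k j) * (ee x k j)⁻¹) * ee x k j * ρ j := by
      intro j hj
      have hjk := Finset.ne_of_mem_erase hj
      have p1 := hpos k j hjk.symm
      have e1 := ee_pos x k j
      simp only [ρ]
      field_simp
    rw [Finset.prod_congr rfl h1, Finset.prod_mul_distrib, Finset.prod_mul_distrib,
      Finset.prod_mul_distrib, Finset.prod_const, Finset.card_erase_of_mem (Finset.mem_univ k),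
      Finset.card_univ, Fintype.card_fin]
  -- off-diagonal terms
  let Q : ℝ := ∏ j ∈ Finset.univ.erase k, (1 + ((ee x k j)⁻¹) ^ 2 / ρ j)
  have hoff : ∀ i, i ≠ k → ‖∏ j ∈ Finset.univ.erase i, brE (t k) (w i j)‖ ≤
      N ^ (n - 1) * V i * Ek * R * (((ee x k i)⁻¹ / ρ i) * Q) := by
    intro i hik
    rw [norm_prod]
    have hkmem : k ∈ Finset.univ.erase i := Finset.mem_erase.2 ⟨hik.symm, Finset.mem_univ _⟩
    have himem : i ∈ Finset.univ.erase k := Finset.mem_erase.2 ⟨hik, Finset.mem_univ _⟩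
    have hsets : (Finset.univ.erase i).erase k = (Finset.univ.erase k).erase i := by
      ext j; simp only [Finset.mem_erase, Finset.mem_univ, and_true]; tauto
    rw [← Finset.mul_prod_erase _ _ hkmem]
    -- the factor j = k
    have hfk : ‖brE (t k) (w i k)‖ ≤ N * (nn x i (w i k) * (ee x i k)⁻¹) := by
      have h1 : ‖brE (t k) (w i k)‖ ≤ nn x k (t k) * nn x k (w i k) := br_le_GG (hx k) _ _
      rw [hw i k hik] at h1
      refine h1.trans (le_of_eq ?_)
      ring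
    -- the factors j ≠ i, k
    have hfj : ∏ j ∈ (Finset.univ.erase i).erase k, ‖brE (t k) (w i j)‖ ≤
        ∏ j ∈ (Finset.univ.erase i).erase k, (N * (nn x i (w i j) * (ee x i j)⁻¹) * ee x k j * ρ j *
          (1 + ((ee x k j)⁻¹) ^ 2 / ρ j)) := by
      apply Finset.prod_le_prod
      · intro j _; exact norm_nonneg _
      · intro j hj
        have hjk := Finset.ne_of_mem_erase hj
        have hji := Finset.ne_of_mem_erase (Finset.mem_of_mem_erase hj)
        have h1 := factor_bound x w hx hw hpos i j k hji hjk (t k) hNpos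
        refine h1.trans (le_of_eq ?_)
        have hρj := hρ j hjk
        change nn x i (w i j) * (ee x i j)⁻¹ * ee x k j * N * (ρ j + ((ee x k j)⁻¹) ^ 2) = _
        field_simp
    have hmul := mul_le_mul hfk hfj (Finset.prod_nonneg fun j _ => norm_nonneg _)
      (mul_nonneg hNpos.le (mul_nonneg (nn_nonneg _ _ _) (inv_nonneg.2 (ee_pos _ _ _).le)))
    refine hmul.trans ?_
    -- reorganise
    rw [Finset.prod_mul_distrib, Finset.prod_mul_distrib, Finset.prod_mul_distrib,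
      Finset.prod_mul_distrib, Finset.prod_const]
    have hcard : ((Finset.univ.erase i).erase k).card + 1 = n - 1 := by
      rw [Finset.card_erase_of_mem hkmem, Finset.card_erase_of_mem (Finset.mem_univ i),
        Finset.card_univ, Fintype.card_fin]
      have h2 : 1 < n := by
        by_contra hcon
        push Not at hcon
        apply hik
        apply Fin.ext
        have := i.2
        have := k.2
        omega
      omega
    have hVi : V i = (nn x i (w i k) * (ee x i k)⁻¹) *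
        ∏ j ∈ (Finset.univ.erase i).erase k, (nn x i (w i j) * (ee x i j)⁻¹) :=
      (Finset.mul_prod_erase _ _ hkmem).symm
    have hEki : Ek = ee x k i * ∏ j ∈ (Finset.univ.erase i).erase k, ee x k j := by
      rw [hsets]; exact (Finset.mul_prod_erase _ _ himem).symm
    have hRi : R = ρ i * ∏ j ∈ (Finset.univ.erase i).erase k, ρ j := by
      rw [hsets]; exact (Finset.mul_prod_erase _ _ himem).symm
    have hQi : ∏ j ∈ (Finset.univ.erase i).erase k, (1 + ((ee x k j)⁻¹) ^ 2 / ρ j) ≤ Q := by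
      rw [hsets]
      have h3 : Q = (1 + ((ee x k i)⁻¹) ^ 2 / ρ i) *
        ∏ j ∈ (Finset.univ.erase k).erase i, (1 + ((ee x k j)⁻¹) ^ 2 / ρ j) :=
        (Finset.mul_prod_erase _ _ himem).symm
      rw [h3]
      have h4 : 0 ≤ ∏ j ∈ (Finset.univ.erase k).erase i, (1 + ((ee x k j)⁻¹) ^ 2 / ρ j) := by
        apply Finset.prod_nonneg
        intro j hj
        have := hρ j (Finset.ne_of_mem_erase (Finset.mem_of_mem_erase hj))
        positivity
      have h5 : 1 ≤ 1 + ((ee x k i)⁻¹) ^ 2 / ρ i := by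
        have := hρ i hik
        have : 0 ≤ ((ee x k i)⁻¹) ^ 2 / ρ i := by positivity
        linarith
      nlinarith
    rw [hVi, hEki, hRi, ← hcard, pow_succ]
    have hρi := hρ i hik
    have hei := ee_pos x k i
    have hprod1 : 0 < ∏ j ∈ (Finset.univ.erase i).erase k, (nn x i (w i j) * (ee x i j)⁻¹) := by
      apply Finset.prod_pos
      intro j hj
      have hji := Finset.ne_of_mem_erase (Finset.mem_of_mem_erase hj)
      exact mul_pos (hpos i j hji.symm) (inv_pos.2 (ee_pos x i j))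
    have hprod2 : 0 < ∏ j ∈ (Finset.univ.erase i).erase k, ee x k j :=
      Finset.prod_pos fun j _ => ee_pos x k j
    have hprod3 : 0 < ∏ j ∈ (Finset.univ.erase i).erase k, ρ j :=
      Finset.prod_pos fun j hj => hρ j (Finset.ne_of_mem_erase hj)
    have hnik : 0 < nn x i (w i k) * (ee x i k)⁻¹ := mul_pos (hpos i k hik) (inv_pos.2 (ee_pos _ _ _))
    exact aux_mul N _ _ _ _ _ Q _ _ _ hNpos.le hnik.le hprod1.le hprod2.le hprod3.le hQi hei hρi
  -- numerical estimate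
  set σ := ∑ j ∈ Finset.univ.erase k, (ee x k j)⁻¹ with hσ
  have hσ0 : 0 ≤ σ := Finset.sum_nonneg fun j _ => (inv_pos.2 (ee_pos x k j)).le
  have hσ1 : σ ≤ 3 / 8 := hsep k
  have hA : ∑ i ∈ Finset.univ.erase k, (ee x k i)⁻¹ / ρ i ≤ 2 * σ := by
    refine le_trans (le_of_eq ?_) (hsum k)
    apply Finset.sum_congr rfl
    intro i hi
    simp only [ρ]
    rw [div_div_eq_mul_div, mul_div_assoc]
  have hQexp : Q ≤ Real.exp (2 * σ ^ 2) := by
    have h1 : Q ≤ ∏ j ∈ Finset.univ.erase k, Real.exp (((ee x k j)⁻¹) ^ 2 / ρ j) := by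
      apply Finset.prod_le_prod
      · intro j hj
        have := hρ j (Finset.ne_of_mem_erase hj)
        positivity
      · intro j _
        rw [add_comm]
        exact Real.add_one_le_exp _
    rw [← Real.exp_sum] at h1
    refine h1.trans (Real.exp_le_exp.2 ?_)
    have h2 : ∑ j ∈ Finset.univ.erase k, ((ee x k j)⁻¹) ^ 2 / ρ j ≤
        ∑ j ∈ Finset.univ.erase k, σ * ((ee x k j)⁻¹ / ρ j) := by
      apply Finset.sum_le_sum
      intro j hj
      have hρj := hρ j (Finset.ne_of_mem_erase hj)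
      have hej := ee_pos x k j
      have h3 : (ee x k j)⁻¹ ≤ σ :=
        Finset.single_le_sum (f := fun j => (ee x k j)⁻¹) (fun i _ => (inv_pos.2 (ee_pos x k i)).le) hj
      rw [pow_two, mul_div_assoc]
      exact mul_le_mul_of_nonneg_right h3 (by positivity)
    rw [← Finset.mul_sum] at h2
    refine h2.trans ?_
    nlinarith
  have hQ0 : 0 ≤ Q := by
    apply Finset.prod_nonneg
    intro j hj
    have := hρ j (Finset.ne_of_mem_erase hj)
    positivity
  have hA0 : 0 ≤ ∑ i ∈ Finset.univ.erase k, (ee x k i)⁻¹ / ρ i := by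
    apply Finset.sum_nonneg
    intro i hi
    have := hρ i (Finset.ne_of_mem_erase hi)
    have := ee_pos x k i
    positivity
  clear_value V ρ Ek R Q
  -- combine
  have hrel := hg k
  rw [← Finset.add_sum_erase _ _ (Finset.mem_univ k)] at hrel
  have hrel2 : ‖g k * ∏ j ∈ Finset.univ.erase k, brE (t k) (w k j)‖ ≤
      ∑ i ∈ Finset.univ.erase k, ‖g i * ∏ j ∈ Finset.univ.erase i, brE (t k) (w i j)‖ := by
    have h1 : g k * ∏ j ∈ Finset.univ.erase k, brE (t k) (w k j) =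
        -∑ i ∈ Finset.univ.erase k, g i * ∏ j ∈ Finset.univ.erase i, brE (t k) (w i j) := by
      linear_combination hrel
    rw [h1, norm_neg]
    exact norm_sum_le _ _
  rw [norm_mul, hdiag] at hrel2
  have hbound : ∑ i ∈ Finset.univ.erase k, ‖g i * ∏ j ∈ Finset.univ.erase i, brE (t k) (w i j)‖ ≤
      ∑ i ∈ Finset.univ.erase k, (‖g k‖ * V k) * (N ^ (n - 1) * Ek * R * (((ee x k i)⁻¹ / ρ i) * Q)) := by
    apply Finset.sum_le_sum
    intro i hi
    have hik := Finset.ne_of_mem_erase hi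
    rw [norm_mul]
    have h1 := hoff i hik
    have h2 := hk i (Finset.mem_univ i)
    have h3 : 0 ≤ N ^ (n - 1) * Ek * R * (((ee x k i)⁻¹ / ρ i) * Q) := by
      have a1 := hρ i hik
      have a2 := ee_pos x k i
      exact mul_nonneg (mul_nonneg (mul_nonneg (pow_nonneg hNpos.le _) hEk.le) hR.le)
        (mul_nonneg (div_nonneg (inv_nonneg.2 a2.le) a1.le) hQ0)
    calc ‖g i‖ * ‖∏ j ∈ Finset.univ.erase i, brE (t k) (w i j)‖
        ≤ ‖g i‖ * (N ^ (n - 1) * V i * Ek * R * (((ee x k i)⁻¹ / ρ i) * Q)) :=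
          mul_le_mul_of_nonneg_left h1 (norm_nonneg _)
      _ = (‖g i‖ * V i) * (N ^ (n - 1) * Ek * R * (((ee x k i)⁻¹ / ρ i) * Q)) := by ring
      _ ≤ _ := mul_le_mul_of_nonneg_right h2 h3
  have hfin := hrel2.trans hbound
  rw [← Finset.mul_sum, ← Finset.mul_sum, ← Finset.sum_mul] at hfin
  have hW : 0 < (‖g k‖ * V k) * (N ^ (n - 1) * Ek * R) :=
    mul_pos hkpos (mul_pos (mul_pos (pow_pos hNpos _) hEk) hR)
  have hfin2 : 1 ≤ (∑ i ∈ Finset.univ.erase k, (ee x k i)⁻¹ / ρ i) * Q := by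
    have h1 : (‖g k‖ * V k) * (N ^ (n - 1) * Ek * R) * 1 ≤ (‖g k‖ * V k) * (N ^ (n - 1) * Ek * R) *
        ((∑ i ∈ Finset.univ.erase k, (ee x k i)⁻¹ / ρ i) * Q) := by
      have e1 : (‖g k‖ * V k) * (N ^ (n - 1) * Ek * R) * 1 = ‖g k‖ * (N ^ (n - 1) * V k * Ek * R) := by ring
      have e2 : (‖g k‖ * V k) * (N ^ (n - 1) * Ek * R) *
          ((∑ i ∈ Finset.univ.erase k, (ee x k i)⁻¹ / ρ i) * Q) = ‖g k‖ * V k *
          (N ^ (n - 1) * Ek * R * ((∑ i ∈ Finset.univ.erase k, (ee x k i)⁻¹ / ρ i) * Q)) := by ring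
      rw [e1, e2]
      exact hfin
    exact le_of_mul_le_mul_left h1 hW
  have hexp : Real.exp (2 * σ ^ 2) ≤ 1325 / 1000 := by
    have h1 : 2 * σ ^ 2 ≤ 9 / 32 := by nlinarith
    refine (Real.exp_le_exp.2 h1).trans ?_
    have h2 := Real.exp_bound' (x := 9 / 32) (by norm_num) (by norm_num) (n := 5) (by norm_num)
    refine h2.trans ?_
    norm_num [Finset.sum_range_succ, Nat.factorial]
  have : (∑ i ∈ Finset.univ.erase k, (ee x k i)⁻¹ / ρ i) * Q ≤ (3 / 4) * (1325 / 1000) := by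
    apply mul_le_mul (hA.trans (by linarith)) (hQexp.trans hexp) hQ0 (by norm_num)
  have h9 : (3 / 4 : ℝ) * (1325 / 1000) < 1 := by norm_num
  linarith

end Dominance

/-! ### Assembly -/

/-- the inverse of `GG x` on vectors -/
noncomputable def GGinv (x : Fin 3 → ℝ) (a : E2) : E2 :=
  WithLp.toLp 2 (a.ofLp.1 * ((al x : ℂ))⁻¹ + cc x * ((al x : ℂ) * a.ofLp.2), (al x : ℂ) * a.ofLp.2)

theorem GG_GGinv {x : Fin 3 → ℝ} (hx : ∑ k, x k ^ 2 < 1) (a : E2) : GG x (GGinv x a) = a := by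
  have h4 : (al x : ℂ) ≠ 0 := by exact_mod_cast (al_pos hx).ne'
  apply WithLp.ofLp_injective
  apply Prod.ext
  · change (al x : ℂ) * ((a.ofLp.1 * ((al x : ℂ))⁻¹ + cc x * ((al x : ℂ) * a.ofLp.2))
      - cc x * ((al x : ℂ) * a.ofLp.2)) = _
    field_simp
    ring
  · change ((al x : ℂ)⁻¹) * ((al x : ℂ) * a.ofLp.2) = _
    field_simp

/-- If, for each `k`, the sum over `i ≠ k` of `exp (-d(x_k, x_i)/2)` is at most `3/8`, then the
configuration polynomials are linearly independent. -/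
theorem result (n : ℕ) (x : Fin n → Fin 3 → ℝ) (p : Fin n → Fin n → Fin 3 → ℝ)
    (hx : ∀ i, ∑ k : Fin 3, (x i k) ^ 2 < 1)
    (hp : ∀ i j, i ≠ j → (∑ k : Fin 3, (p i j k) ^ 2 = 1) ∧
      ∃ t : ℝ, 0 < t ∧ p i j = x i + t • (x j - x i))
    (hsep : ∀ k, ∑ i ∈ Finset.univ.erase k, Real.exp (-(kleinDist (x k) (x i)) / 2) ≤ 3 / 8) :
    LinearIndependent ℂ (fun i : Fin n =>
        ∏ j ∈ Finset.univ.erase i,
          (if p i j 2 = 1 then (1 : Polynomial ℂ) else
            Polynomial.X - Polynomial.C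
              (((p i j 0 : ℂ) + (p i j 1 : ℂ) * Complex.I) / (1 - (p i j 2 : ℂ))))) := by
  classical
  rw [Fintype.linearIndependent_iff]
  intro g hg
  let w : Fin n → Fin n → E2 := fun i j => spin (p i j)
  have hw : ∀ i j, i ≠ j → nn x j (w i j) = (ee x i j)⁻¹ * nn x i (w i j) := by
    intro i j hij
    obtain ⟨h1, t, ht, h2⟩ := hp i j hij
    exact spin_contr (hx i) (hx j) h1 t ht (fun k => by rw [h2]; simp)
  have hpos : ∀ i j, i ≠ j → 0 < nn x i (w i j) := by
    intro i j _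
    exact norm_pos_iff.2 (GG_ne (hx i) spin_ne)
  have hsep' : ∀ k, ∑ i ∈ Finset.univ.erase k, (ee x k i)⁻¹ ≤ 3 / 8 := by
    intro k
    refine le_trans (le_of_eq ?_) (hsep k)
    apply Finset.sum_congr rfl
    intro i _
    unfold ee
    rw [← Real.exp_neg, neg_div]
  have hex : ∀ k, ∃ t : E2, t.ofLp.2 ≠ 0 ∧ 0 < nn x k t ∧ (∀ j, j ≠ k → brE t (w k j) ≠ 0) ∧
      ∑ j ∈ Finset.univ.erase k, (ee x k j)⁻¹ * (nn x k t * nn x k (w k j) / ‖brE t (w k j)‖) ≤
      2 * ∑ j ∈ Finset.univ.erase k, (ee x k j)⁻¹ := by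
    intro k
    have hN : MeasureTheory.volume {τ : E2 | brE τ (WithLp.toLp 2 ((1 : ℂ), (0 : ℂ))) = 0} = 0 := by
      apply null_br
      intro h
      have h2 : (1 : ℂ) = 0 := congrArg (fun v : E2 => v.ofLp.1) h
      exact one_ne_zero h2
    obtain ⟨τ, h1, h2, h3, h4⟩ := exists_good (Finset.univ.erase k) (fun j => (ee x k j)⁻¹)
      (fun j => GG (x k) (w k j)) (fun j _ => (inv_pos.2 (ee_pos x k j)).le)
      (fun j _ => GG_ne (hx k) spin_ne) _ hN
    have hτ2 : τ.ofLp.2 ≠ 0 := by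
      intro h
      apply h1
      change τ.ofLp.1 * (0 : ℂ) - τ.ofLp.2 * (1 : ℂ) = 0
      rw [h]
      simp
    have hGτ := GG_GGinv (hx k) τ
    have hbr : ∀ a, brE (GGinv (x k) τ) a = brE τ (GG (x k) a) := by
      intro a
      rw [← GG_br (hx k), hGτ]
    have hnn : nn x k (GGinv (x k) τ) = ‖τ‖ := by
      unfold nn
      rw [hGτ]
    refine ⟨GGinv (x k) τ, ?_, ?_, ?_, ?_⟩
    · change (al (x k) : ℂ) * τ.ofLp.2 ≠ 0
      exact mul_ne_zero (by exact_mod_cast (al_pos (hx k)).ne') hτ2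
    · rw [hnn]; exact norm_pos_iff.2 h2
    · intro j hj
      rw [hbr]
      exact h3 j (Finset.mem_erase.2 ⟨hj, Finset.mem_univ _⟩)
    · rw [hnn]
      simp only [hbr]
      exact h4
  choose t ht2 htn hne hsum using hex
  have hg0 : g = 0 := by
    refine dominance x w hx hw hpos hsep' t htn hne hsum g ?_
    intro k
    have h1 := congrArg (Polynomial.eval ((t k).ofLp.1 / (t k).ofLp.2)) hg
    rw [Polynomial.eval_finsetSum] at h1
    simp only [Polynomial.eval_smul, smul_eq_mul, Polynomial.eval_zero, Polynomial.eval_prod] at h1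
    have h2 : ∀ i, ∏ j ∈ Finset.univ.erase i, brE (t k) (w i j) = (t k).ofLp.2 ^ (n - 1) *
        ∏ j ∈ Finset.univ.erase i, (if p i j 2 = 1 then (1 : Polynomial ℂ) else
            Polynomial.X - Polynomial.C
              (((p i j 0 : ℂ) + (p i j 1 : ℂ) * Complex.I) / (1 - (p i j 2 : ℂ)))).eval
              ((t k).ofLp.1 / (t k).ofLp.2) := by
      intro i
      have h3 : ∀ j ∈ Finset.univ.erase i, brE (t k) (w i j) = (t k).ofLp.2 *
        (if p i j 2 = 1 then (1 : Polynomial ℂ) else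
            Polynomial.X - Polynomial.C
              (((p i j 0 : ℂ) + (p i j 1 : ℂ) * Complex.I) / (1 - (p i j 2 : ℂ)))).eval
              ((t k).ofLp.1 / (t k).ofLp.2) := fun j _ => spin_br _ _ (ht2 k)
      rw [Finset.prod_congr rfl h3, Finset.prod_mul_distrib, Finset.prod_const,
        Finset.card_erase_of_mem (Finset.mem_univ i), Finset.card_univ, Fintype.card_fin]
    simp only [h2]
    rw [← mul_zero ((t k).ofLp.2 ^ (n - 1)), ← h1, Finset.mul_sum]
    apply Finset.sum_congr rfl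
    intro i _
    ring
  intro i
  rw [hg0]
  rfl

end Pool.Agent.Results.MP_1fedf0_gt.Separated
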