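import Pool.Agent.H88.Euc.Main

/-!
# Coplanar points in weakly convex position: the Atiyah–Sutcliffe inequality, hyperbolic and Euclidean

The points are coplanar and none of them lies in the relative interior of their convex hull
(vertices and points on the sides are allowed).

The end points of the rays are written as angles `u i l`, weakly increasing in `i` and in `l`
(`Pool.Agent.H64.CW`).  For such arrays the determinant of the configuration polynomials is at
least the one of the array without a vertex times the product of the brackets of the new pairs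
(`Pool.Agent.H65.AS`): the two determinants are evaluated at the nodes of the row of the vertex,
where the big matrix is the Hadamard product of the small one and the matrix of the brackets; the
chain of inequalities `a_r b_(r+1) ≥ B_(r+1,r+1) b_r a_(r+1)` for the lower right minors follows
from an elimination identity and the signs of the determinants with one row replaced, which come
from `Pool.Agent.H40.Atiyah.pp_all`.

The curvature is `-s²`, `s ≥ 0`.  For `s > 0` the points `s x` are points of the Klein ball; the
Euclidean case `s = 0` is the limit `s → 0` (`Pool.Agent.H88.Euc`): the normalised determinant is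
continuous and the inequalities are closed conditions.
-/

set_option autoImplicit false

namespace Pool.Agent.Results.MP_1fedf0_gt.WeaklyConvex

open Finset Polynomial
open Pool.Agent.Results.MP_1fedf0_gt.CollinearPlusOne (spin br)
open Pool.Agent.H65.AS (cf cdet pol FF)

/-- the stereographic image of a point of the unit sphere other than (0, 0, 1) -/
noncomputable def st (q : Fin 3 → ℝ) : ℂ :=
  ((q 0 : ℂ) + (q 1 : ℂ) * Complex.I) / (1 - (q 2 : ℂ))

/-- the configuration polynomials -/
noncomputable def beta {n : ℕ} (p : Fin n → Fin n → Fin 3 → ℝ) (i : Fin n) : ℂ[X] :=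
  ∏ j ∈ Finset.univ.erase i, (if p i j 2 = 1 then (1 : ℂ[X]) else X - C (st (p i j)))

/-- the determinant of their coefficients -/
noncomputable def coeffDet {n : ℕ} (p : Fin n → Fin n → Fin 3 → ℝ) : ℂ :=
  (Matrix.of fun i k : Fin n => (beta p i).coeff (k : ℕ)).det

/-- `|u_ij - u_ji|`; it is `1` if one of the two points is `∞` -/
noncomputable def gap {n : ℕ} (p : Fin n → Fin n → Fin 3 → ℝ) (i j : Fin n) : ℝ :=
  if p i j 2 = 1 ∨ p j i 2 = 1 then 1 else ‖st (p i j) - st (p j i)‖

/-- the absolute value of the normalised Atiyah–Sutcliffe determinant -/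
noncomputable def normDet {n : ℕ} (p : Fin n → Fin n → Fin 3 → ℝ) : ℝ :=
  ‖coeffDet p‖ / ∏ i, ∏ j ∈ Finset.Ioi i, gap p i j

theorem beta_eq {n : ℕ} (p : Fin n → Fin n → Fin 3 → ℝ) (i : Fin n) :
    beta p i = pol (fun j => spin (p i j)) (Finset.univ.erase i) := by
  unfold beta pol
  refine Finset.prod_congr rfl fun j _ => ?_
  beta_reduce
  by_cases h : p i j 2 = 1
  · have h1 : spin (p i j) = (-1, 0) := by
      unfold spin
      rw [if_pos h]
    rw [if_pos h, h1]
    simp
  · have h1 : spin (p i j) = (st (p i j), 1) := by
      unfold spin st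
      rw [if_neg h]
    rw [if_neg h, h1]
    simp

theorem coeffDet_eq {n : ℕ} (p : Fin n → Fin n → Fin 3 → ℝ) : coeffDet p = cdet (fun i j => spin (p i j)) := by
  unfold coeffDet cdet cf
  simp only [beta_eq]

theorem gap_eq {n : ℕ} (p : Fin n → Fin n → Fin 3 → ℝ) (i j : Fin n)
    (h : br (spin (p i j)) (spin (p j i)) ≠ 0) :
    gap p i j = ‖br (spin (p i j)) (spin (p j i))‖ := by
  unfold gap br spin
  by_cases h1 : p i j 2 = 1
  · by_cases h2 : p j i 2 = 1
    · exfalso
      apply h
      unfold br spin
      rw [if_pos h1, if_pos h2]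
      simp
    · rw [if_pos (Or.inl h1), if_pos h1, if_neg h2]
      simp
  · by_cases h2 : p j i 2 = 1
    · rw [if_pos (Or.inr h2), if_neg h1, if_pos h2]
      simp
    · rw [if_neg (fun h' => h'.elim h1 h2), if_neg h1, if_neg h2]
      unfold st
      simp

theorem normDet_eq {n : ℕ} (p : Fin n → Fin n → Fin 3 → ℝ)
    (h : ∀ i j, i ≠ j → br (spin (p i j)) (spin (p j i)) ≠ 0) :
    normDet p = FF (fun i j => spin (p i j)) := by
  unfold normDet FF
  rw [coeffDet_eq]
  congr 1
  exact Finset.prod_congr rfl fun i _ => Finset.prod_congr rfl fun j hj =>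
    gap_eq p i j (h i j (Finset.mem_Ioi.1 hj).ne)

theorem normDet_zero (p : Fin 0 → Fin 0 → Fin 3 → ℝ) : normDet p = 1 := by
  unfold normDet coeffDet
  rw [Matrix.det_fin_zero]
  simp

theorem normDet_one (p : Fin 1 → Fin 1 → Fin 3 → ℝ) : normDet p = 1 := by
  have h1 : coeffDet p = 1 := by
    unfold coeffDet
    rw [Matrix.det_fin_one, Matrix.of_apply]
    unfold beta
    have : Finset.univ.erase (0 : Fin 1) = ∅ := by decide
    rw [this, Finset.prod_empty]
    simp
  have h2 : ∀ i : Fin 1, Finset.Ioi i = ∅ := by decide
  unfold normDet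
  rw [h1]
  simp [h2]

theorem normDet_small {m : ℕ} (hm : m < 2) (p : Fin m → Fin m → Fin 3 → ℝ) : normDet p = 1 := by
  rcases Nat.eq_zero_or_pos m with h | h
  · subst h
    exact normDet_zero p
  · obtain rfl : m = 1 := by omega
    exact normDet_one p

/-- Let `s ≥ 0` and let `x 0, ..., x (n - 1)` be distinct points of `ℝ³` with `s |x i| < 1` in one
plane, none of them in the relative interior of their convex hull.  Let `p i j` be the unit vector
of the form `s x_i + t (x_j - x_i)` with `t > 0`: for `s = 1` the end point of the ray from `x_i`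
through `x_j` in the Klein model of hyperbolic space, for `s = 0` the direction of `x_j - x_i` in
Euclidean space.  Then the configuration polynomials are linearly independent, and the normalised
determinant of the configuration is at least the one of each of its subconfigurations (in
particular, at least `1`). -/
theorem result (n : ℕ) (s : ℝ) (hs : 0 ≤ s) (x : Fin n → Fin 3 → ℝ)
    (p : Fin n → Fin n → Fin 3 → ℝ) (hx : ∀ i, s ^ 2 * ∑ k : Fin 3, (x i k) ^ 2 < 1)
    (hinj : Function.Injective x)
    (hp : ∀ i j, i ≠ j → (∑ k : Fin 3, (p i j k) ^ 2 = 1) ∧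
      ∃ t : ℝ, 0 < t ∧ p i j = s • x i + t • (x j - x i))
    (hcop : Coplanar ℝ (Set.range x))
    (hw : ∀ i, x i ∉ intrinsicInterior ℝ (convexHull ℝ (Set.range x))) :
    LinearIndependent ℂ (beta p) ∧ 1 ≤ normDet p ∧
      ∀ (m : ℕ) (f : Fin m → Fin n), Function.Injective f →
        normDet (fun i j => p (f i) (f j)) ≤ normDet p := by
  rcases Nat.lt_or_ge n 2 with hn | hn
  · have h1 : normDet p = 1 := normDet_small hn p
    refine ⟨?_, h1.ge, ?_⟩
    · apply Pool.Agent.H65.AS.linInd_of_det
      change coeffDet p ≠ 0
      intro h2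
      unfold normDet at h1
      rw [h2, norm_zero, zero_div] at h1
      exact zero_ne_one h1
    · intro m f hf
      have hm : m ≤ n := by simpa using Fintype.card_le_of_injective f hf
      rw [normDet_small (by omega), h1]
  obtain ⟨hbr, hone, hsub⟩ := Pool.Agent.H88.Euc.all_curvatures hn hs hx hinj hp hcop hw
  have h1 : 1 ≤ normDet p := by
    rw [normDet_eq p hbr]
    exact hone
  refine ⟨?_, h1, ?_⟩
  · apply Pool.Agent.H65.AS.linInd_of_det
    change coeffDet p ≠ 0
    intro h2
    unfold normDet at h1
    rw [h2, norm_zero, zero_div] at h1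
    exact absurd h1 (by norm_num)
  · intro m f hf
    rcases Nat.lt_or_ge m 2 with hm | hm
    · rw [normDet_small hm]
      exact h1
    · rw [normDet_eq p hbr, normDet_eq (fun i j => p (f i) (f j))
        (fun i j hij => hbr _ _ (fun h => hij (hf h)))]
      exact hsub m hm f hf

end Pool.Agent.Results.MP_1fedf0_gt.WeaklyConvex
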